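import Pool.Agent.X108.HB.BL

/-!
# Double sums: the general inequality
-/

set_option autoImplicit false

namespace Pool.Agent.X108.HB

open Finset Pool.Agent.Y766 Pool.Agent.Y766.PS

/-- arithmetic of the exponents -/
lemma expo {s T : ℝ} (hs : 1 ≤ s) (hT : 1 ≤ T) (k : ℕ) (hk : 1 ≤ k)
    (h : s ^ (2 * k + 1) ≤ T ^ (k + 1)) :
    (T ^ (k + 1) / s ^ (2 * k + 1)) ^ 2 ≤ (T ^ 2 / s ^ 3) ^ (k * (k + 1)) := by
  obtain ⟨j, rfl⟩ : ∃ j, k = j + 1 := ⟨k - 1, by omega⟩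
  have hs0 : 0 < s := by linarith
  have hT0 : 0 < T := by linarith
  rw [div_pow, div_pow, ← pow_mul, ← pow_mul, ← pow_mul, ← pow_mul, div_le_div_iff₀ (by positivity)
    (by positivity)]
  have h1 : s ^ (3 * j + 5) ≤ T ^ (2 * j + 4) := by
    calc s ^ (3 * j + 5) ≤ s ^ ((2 * (j + 1) + 1) * 2) := pow_le_pow_right₀ hs (by omega)
      _ = (s ^ (2 * (j + 1) + 1)) ^ 2 := by rw [pow_mul]
      _ ≤ (T ^ (j + 1 + 1)) ^ 2 := pow_le_pow_left₀ (by positivity) h 2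
      _ = T ^ (2 * j + 4) := by rw [← pow_mul]; congr 1; ring
  have h2 : (s ^ (3 * j + 5)) ^ j ≤ (T ^ (2 * j + 4)) ^ j := pow_le_pow_left₀ (by positivity) h1 j
  have e1 : T ^ ((j + 1 + 1) * 2) * s ^ (3 * ((j + 1) * (j + 1 + 1))) =
      (T ^ ((j + 1 + 1) * 2) * s ^ ((2 * (j + 1) + 1) * 2)) * (s ^ (3 * j + 5)) ^ j := by
    rw [← pow_mul, mul_assoc, ← pow_add]
    congr 2
    ring
  have e2 : T ^ (2 * ((j + 1) * (j + 1 + 1))) * s ^ ((2 * (j + 1) + 1) * 2) =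
      (T ^ ((j + 1 + 1) * 2) * s ^ ((2 * (j + 1) + 1) * 2)) * (T ^ (2 * j + 4)) ^ j := by
    rw [← pow_mul, mul_right_comm, ← pow_add]
    congr 2
    ring
  rw [e1, e2]
  exact mul_le_mul_of_nonneg_left h2 (by positivity)

/-- the right hand side -/
noncomputable def R3 (s T X : ℝ) : ℝ :=
  s ^ 2 * X + s * X ^ 2 + s ^ (5 / 4 : ℝ) * T ^ (1 / 2 : ℝ) * X

lemma R3_nonneg {s T X : ℝ} (hs : 0 ≤ s) (hT : 0 ≤ T) (hX : 0 ≤ X) : 0 ≤ R3 s T X := by
  unfold R3; positivity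

/-- **the general inequality** -/
theorem F3 {ε : ℝ} (hε : 0 < ε) : ∃ C : ℝ, 1 ≤ C ∧ ∀ (T : ℝ), 1 ≤ T → ∀ (S : Finset ℝ) (x : ℝ),
    WS S x T → ∀ (X : ℕ), 1 ≤ X → (X : ℝ) ≤ 2 * T → ∀ (c : ℝ → ℂ), (∀ t ∈ S, ‖c t‖ ≤ 1) →
    SS S c X ≤ C * T ^ ε * R3 S.card T X := by
  set M : ℕ := ⌈1 / ε⌉₊ + 1 with hM
  obtain ⟨C, hC1, hC⟩ := SB hε M
  refine ⟨2 * C, by linarith, ?_⟩
  intro T hT S x hS X hX hX2T c hc
  have hT0 : 0 < T := by linarith
  have hXr : (1 : ℝ) ≤ X := by exact_mod_cast hX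
  have hX0 : (0 : ℝ) < X := by linarith
  have hTε1 : 1 ≤ T ^ ε := Real.one_le_rpow hT hε.le
  rcases S.eq_empty_or_nonempty with he | hne
  · have : SS S c X = 0 := by
      unfold SS; rw [he]; simp
    rw [this]
    have := R3_nonneg (s := (S.card : ℝ)) (T := T) (X := X) (Nat.cast_nonneg _) hT0.le hX0.le
    positivity
  set s : ℝ := (S.card : ℝ) with hs
  have hs1 : 1 ≤ s := by
    rw [hs]; exact_mod_cast hne.card_pos
  have hs0 : 0 < s := by linarith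
  have hR1 : s ^ 2 * X ≤ R3 s T X := by
    unfold R3
    have h1 : 0 ≤ s * (X : ℝ) ^ 2 := by positivity
    have h2 : 0 ≤ s ^ (5 / 4 : ℝ) * T ^ (1 / 2 : ℝ) * (X : ℝ) := by positivity
    linarith
  have hR2 : s * (X : ℝ) ^ 2 ≤ R3 s T X := by
    unfold R3
    have h1 : 0 ≤ s ^ 2 * (X : ℝ) := by positivity
    have h2 : 0 ≤ s ^ (5 / 4 : ℝ) * T ^ (1 / 2 : ℝ) * (X : ℝ) := by positivity
    linarith
  have hR3 : s ^ (5 / 4 : ℝ) * T ^ (1 / 2 : ℝ) * (X : ℝ) ≤ R3 s T X := by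
    unfold R3
    have h1 : 0 ≤ s ^ 2 * (X : ℝ) := by positivity
    have h2 : 0 ≤ s * (X : ℝ) ^ 2 := by positivity
    linarith
  rcases le_or_gt (X : ℝ) (T ^ (ε / 2)) with hA | hB
  · have h1 := SS_trivial S c hc X
    have h2 : (X : ℝ) ^ 2 ≤ T ^ ε := by
      calc (X : ℝ) ^ 2 ≤ (T ^ (ε / 2)) ^ 2 := pow_le_pow_left₀ hX0.le hA 2
        _ = T ^ ε := by
          rw [← Real.rpow_natCast, ← Real.rpow_mul hT0.le]
          congr 1; push_cast; ring
    calc SS S c X ≤ (X : ℝ) ^ 2 * s ^ 2 := h1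
      _ ≤ T ^ ε * s ^ 2 := by gcongr
      _ = 1 * T ^ ε * (s ^ 2 * 1) := by ring
      _ ≤ (2 * C) * T ^ ε * (s ^ 2 * X) := by gcongr; linarith
      _ ≤ _ := by gcongr
  rcases lt_or_ge T ((X : ℝ) ^ 2) with hk0 | hk0
  · have hM1 : 1 ≤ M := by omega
    have h1 := hC T hT S x hS X 1 hX le_rfl hM1 (by simpa using hX2T) c hc
    simp only [pow_one] at h1
    have e : 2 * 1 - 1 = 1 := by norm_num
    rw [e, pow_one, ← hs] at h1
    calc SS S c X ≤ C * T ^ ε * s * (T + (X : ℝ) ^ 2) := h1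
      _ ≤ C * T ^ ε * s * ((X : ℝ) ^ 2 + (X : ℝ) ^ 2) := by gcongr
      _ = (2 * C) * T ^ ε * (s * (X : ℝ) ^ 2) := by ring
      _ ≤ _ := by gcongr
  · have hT1 : 1 < T := by
      by_contra h
      have hT' : T = 1 := le_antisymm (not_lt.1 h) hT
      rw [hT', Real.one_rpow] at hB
      rw [hT'] at hk0
      have : (1 : ℝ) < (X : ℝ) ^ 2 := one_lt_pow₀ hB (by omega)
      linarith
    have hX1r : (1 : ℝ) < X := lt_of_le_of_lt (Real.one_le_rpow hT (by positivity)) hB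
    have hX1 : 1 < X := by exact_mod_cast hX1r
    have hX2 : 1 < X ^ 2 := Nat.one_lt_pow (by norm_num) hX1
    set k : ℕ := Nat.log (X ^ 2) ⌊T⌋₊ with hk
    have hfl : ⌊T⌋₊ ≠ 0 := by
      have : 0 < ⌊T⌋₊ := Nat.floor_pos.2 hT
      omega
    have hXk : (X : ℝ) ^ (2 * k) ≤ T := by
      have h1 := Nat.pow_log_le_self (X ^ 2) hfl
      rw [← hk] at h1
      have h2 : (((X ^ 2) ^ k : ℕ) : ℝ) ≤ (⌊T⌋₊ : ℝ) := by exact_mod_cast h1
      have h3 := Nat.floor_le hT0.le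
      push_cast at h2
      rw [← pow_mul] at h2
      linarith
    have hXk1 : T < (X : ℝ) ^ (2 * k + 2) := by
      have h1 := Nat.lt_pow_succ_log_self hX2 ⌊T⌋₊
      rw [← hk, Nat.floor_lt hT0.le] at h1
      push_cast at h1
      rw [← pow_mul] at h1
      refine h1.trans_le (le_of_eq ?_)
      congr 1
    have hk1 : 1 ≤ k := by
      by_contra h
      have h0 : k = 0 := by omega
      rw [h0] at hXk1
      have : (X : ℝ) ^ (2 * 0 + 2) = (X : ℝ) ^ 2 := by norm_num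
      rw [this] at hXk1
      linarith
    have hkε : (k : ℝ) ≤ 1 / ε := by
      have h1 : (T ^ (ε / 2)) ^ (2 * k) ≤ T :=
        (pow_le_pow_left₀ (by positivity) hB.le _).trans hXk
      rw [← Real.rpow_natCast, ← Real.rpow_mul hT0.le] at h1
      have h2 : ε / 2 * ((2 * k : ℕ) : ℝ) ≤ 1 := by
        by_contra h3
        push Not at h3
        have h4 := Real.rpow_lt_rpow_of_exponent_lt hT1 h3
        rw [Real.rpow_one] at h4
        linarith
      push_cast at h2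
      rw [le_div_iff₀ hε]
      linarith
    have hkM : k + 1 ≤ M := by
      rw [hM]
      have : (k : ℝ) ≤ (⌈1 / ε⌉₊ : ℝ) := hkε.trans (Nat.le_ceil _)
      have : k ≤ ⌈1 / ε⌉₊ := by exact_mod_cast this
      omega
    have hXk2 : (X : ℝ) ^ (k + 1) ≤ 2 * T := by
      have : (X : ℝ) ^ (k + 1) ≤ (X : ℝ) ^ (2 * k) := pow_le_pow_right₀ hXr (by omega)
      linarith
    have hXk3 : (X : ℝ) ^ k ≤ 2 * T := by
      have : (X : ℝ) ^ k ≤ (X : ℝ) ^ (2 * k) := pow_le_pow_right₀ hXr (by omega)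
      linarith
    have key1 := hC T hT S x hS X k hX hk1 (by omega) hXk3 c hc
    have key2 := hC T hT S x hS X (k + 1) hX (by omega) hkM hXk2 c hc
    rw [← hs] at key1 key2
    set F : ℝ := SS S c X / s ^ 2 with hF
    have hF0 : 0 ≤ F := div_nonneg (SS_nonneg _ _ _) (by positivity)
    obtain ⟨B, hB'⟩ : ∃ B : ℝ, B = 2 * C * T ^ ε := ⟨_, rfl⟩
    have hB1 : 1 ≤ B := by rw [hB']; nlinarith
    have hB0 : 0 < B := by linarith
    -- the two estimates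
    have f1 : F ^ k ≤ B * (T / s) := by
      have h1 : F ^ k = SS S c X ^ k / (s ^ (2 * k - 1) * s) := by
        rw [hF, div_pow]
        congr 1
        rw [← pow_succ, ← pow_mul]
        congr 1
        omega
      rw [h1, div_le_iff₀ (by positivity)]
      calc SS S c X ^ k ≤ C * T ^ ε * s ^ (2 * k - 1) * (T + ((X : ℝ) ^ k) ^ 2) := key1
        _ ≤ C * T ^ ε * s ^ (2 * k - 1) * (T + T) := by
            have : ((X : ℝ) ^ k) ^ 2 ≤ T := by
              rw [← pow_mul, mul_comm]; exact hXk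
            gcongr
        _ = _ := by rw [hB']; field_simp; ring
    have f2 : F ^ (k + 1) ≤ B * ((X : ℝ) ^ (2 * k + 2) / s) := by
      have h1 : F ^ (k + 1) = SS S c X ^ (k + 1) / (s ^ (2 * (k + 1) - 1) * s) := by
        rw [hF, div_pow]
        congr 1
        rw [← pow_succ, ← pow_mul]
        congr 1
      rw [h1, div_le_iff₀ (by positivity)]
      calc SS S c X ^ (k + 1) ≤ C * T ^ ε * s ^ (2 * (k + 1) - 1) * (T + ((X : ℝ) ^ (k + 1)) ^ 2) := key2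
        _ ≤ C * T ^ ε * s ^ (2 * (k + 1) - 1) * ((X : ℝ) ^ (2 * k + 2) + (X : ℝ) ^ (2 * k + 2)) := by
            have : ((X : ℝ) ^ (k + 1)) ^ 2 = (X : ℝ) ^ (2 * k + 2) := by
              rw [← pow_mul]; congr 1; ring
            rw [this]
            gcongr
        _ = _ := by rw [hB']; field_simp; ring
    -- combine
    clear_value k F
    obtain ⟨Φ, hΦ⟩ : ∃ Φ : ℝ, Φ = F / (X * B) := ⟨_, rfl⟩
    have hΦ0 : 0 ≤ Φ := by rw [hΦ]; positivity
    have f3 : Φ ^ (2 * (k * (k + 1))) ≤ T ^ (k + 1) / s ^ (2 * k + 1) := by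
      have e1 : F ^ (2 * (k * (k + 1))) = (F ^ k) ^ (k + 1) * (F ^ (k + 1)) ^ k := by
        rw [← pow_mul, ← pow_mul, ← pow_add]
        congr 1; ring
      have h1 : F ^ (2 * (k * (k + 1))) ≤
          (B * (T / s)) ^ (k + 1) * (B * ((X : ℝ) ^ (2 * k + 2) / s)) ^ k := by
        rw [e1]
        exact mul_le_mul (pow_le_pow_left₀ (by positivity) f1 _)
          (pow_le_pow_left₀ (by positivity) f2 _) (by positivity) (by positivity)
      have h2 : (B * (T / s)) ^ (k + 1) * (B * ((X : ℝ) ^ (2 * k + 2) / s)) ^ k =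
          B ^ (2 * k + 1) * (X : ℝ) ^ (2 * (k * (k + 1))) * (T ^ (k + 1) / s ^ (2 * k + 1)) := by
        have e2 : ((X : ℝ) ^ (2 * k + 2)) ^ k = (X : ℝ) ^ (2 * (k * (k + 1))) := by
          rw [← pow_mul]; congr 1; ring
        rw [mul_pow, mul_pow, div_pow, div_pow, e2]
        have e3 : s ^ (2 * k + 1) = s ^ (k + 1) * s ^ k := by rw [← pow_add]; congr 1; ring
        have e4 : B ^ (2 * k + 1) = B ^ (k + 1) * B ^ k := by rw [← pow_add]; congr 1; ring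
        rw [e3, e4]
        field_simp
      have h3 : B ^ (2 * k + 1) ≤ B ^ (2 * (k * (k + 1))) := by
        apply pow_le_pow_right₀ hB1
        nlinarith
      have hP0 : 0 ≤ T ^ (k + 1) / s ^ (2 * k + 1) := by positivity
      rw [hΦ, div_pow, div_le_iff₀ (by positivity), mul_pow]
      calc F ^ (2 * (k * (k + 1))) ≤ B ^ (2 * k + 1) * (X : ℝ) ^ (2 * (k * (k + 1))) *
            (T ^ (k + 1) / s ^ (2 * k + 1)) := h1.trans h2.le
        _ ≤ B ^ (2 * (k * (k + 1))) * (X : ℝ) ^ (2 * (k * (k + 1))) *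
            (T ^ (k + 1) / s ^ (2 * k + 1)) := by gcongr
        _ = _ := by ring
    have hkk : 2 * (k * (k + 1)) ≠ 0 := by positivity
    refine (le_of_eq (show SS S c X = Φ * (X * B) * s ^ 2 by rw [hΦ, hF]; field_simp)).trans ?_
    clear hF
    rcases le_or_gt (T ^ (k + 1)) (s ^ (2 * k + 1)) with hP | hP
    · have h1 : T ^ (k + 1) / s ^ (2 * k + 1) ≤ 1 := (div_le_one (by positivity)).2 hP
      have h2 : Φ ≤ 1 := by
        by_contra h
        push Not at h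
        have := one_lt_pow₀ h hkk
        linarith
      calc Φ * (X * B) * s ^ 2 ≤ 1 * (X * B) * s ^ 2 := by gcongr
        _ = B * (s ^ 2 * X) := by ring
        _ ≤ B * R3 s T X := by gcongr
        _ = _ := by rw [hB']
    · have h1 := expo hs1 hT k hk1 hP.le
      have h2 : (Φ ^ 4) ^ (k * (k + 1)) ≤ (T ^ 2 / s ^ 3) ^ (k * (k + 1)) := by
        refine le_trans (le_of_eq ?_) ((pow_le_pow_left₀ (by positivity) f3 2).trans h1)
        rw [← pow_mul, ← pow_mul]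
        congr 1; ring
      have h3 : Φ ^ 4 ≤ T ^ 2 / s ^ 3 :=
        (pow_le_pow_iff_left₀ (by positivity) (by positivity) (by positivity)).1 h2
      set Q : ℝ := T ^ (1 / 2 : ℝ) / s ^ (3 / 4 : ℝ) with hQ
      have hQ4 : Q ^ 4 = T ^ 2 / s ^ 3 := by
        rw [hQ, div_pow, ← Real.rpow_natCast, ← Real.rpow_natCast, ← Real.rpow_mul hT0.le,
          ← Real.rpow_mul hs0.le]
        norm_num
      have h4 : Φ ≤ Q := by
        rw [← hQ4] at h3
        exact (pow_le_pow_iff_left₀ hΦ0 (by positivity) (by norm_num)).1 h3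
      have h5 : Q * s ^ 2 = s ^ (5 / 4 : ℝ) * T ^ (1 / 2 : ℝ) := by
        rw [hQ, div_mul_eq_mul_div, div_eq_iff (by positivity), mul_right_comm,
          ← Real.rpow_add hs0]
        norm_num
        ring
      calc Φ * (X * B) * s ^ 2 ≤ Q * (X * B) * s ^ 2 := by gcongr
        _ = B * ((Q * s ^ 2) * X) := by ring
        _ = B * (s ^ (5 / 4 : ℝ) * T ^ (1 / 2 : ℝ) * X) := by rw [h5]
        _ ≤ B * R3 s T X := by gcongr
        _ = _ := by rw [hB']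

/-- **the double sum, general inequality** -/
theorem Z3 {ε : ℝ} (hε : 0 < ε) : ∃ C : ℝ, 1 ≤ C ∧ ∀ (T : ℝ), 1 ≤ T → ∀ (S : Finset ℝ) (x : ℝ),
    WS S x T → ∀ (N : ℕ), 1 ≤ N → (N : ℝ) ≤ 2 * T → ∀ I : Finset ℕ, I ⊆ Icc 1 N →
    ZZ I S ≤ C * T ^ ε * R3 S.card T N := by
  have hε2 : 0 < ε / 2 := by positivity
  obtain ⟨C, hC1, hC⟩ := F3 hε2
  obtain ⟨C2, hC2, h2⟩ := log_absorb hε2
  have h2ε : (1 : ℝ) ≤ 2 ^ (ε / 2) := Real.one_le_rpow (by norm_num) hε2.le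
  refine ⟨C * C2 * 2 ^ (ε / 2), by
    have : 1 ≤ C * C2 := by nlinarith
    nlinarith, ?_⟩
  intro T hT S x hS N hN hNT I hI
  have hT0 : 0 < T := by linarith
  have hNr : (1 : ℝ) ≤ N := by exact_mod_cast hN
  set s : ℝ := (S.card : ℝ) with hs
  have hs0 : 0 ≤ s := Nat.cast_nonneg _
  have hlog : 1 + Real.log N ≤ C2 * (2 ^ (ε / 2) * T ^ (ε / 2)) := by
    rw [← Real.mul_rpow (by norm_num) hT0.le]
    refine (h2 N hNr).trans ?_
    have := Real.rpow_le_rpow (by linarith) hNT hε2.le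
    gcongr
  have hlog0 : 0 ≤ 1 + Real.log N := by
    have := Real.log_nonneg hNr
    linarith
  obtain ⟨a, ha⟩ : ∃ a : ℝ, a = s ^ 2 + s ^ (5 / 4 : ℝ) * T ^ (1 / 2 : ℝ) := ⟨_, rfl⟩
  have ha0 : 0 ≤ a := by rw [ha]; positivity
  have hR : ∀ X : ℝ, R3 s T X = a * X + s * X ^ 2 := by
    intro X
    unfold R3
    rw [ha]; ring
  have hg : ∀ g ∈ Icc 1 N, SS S (fun _ => 1) (N / g) ≤
      C * T ^ (ε / 2) * (a * (((N / g : ℕ) : ℝ)) ^ (1 : ℝ) + s * (((N / g : ℕ) : ℝ)) ^ (2 : ℝ)) := by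
    intro g hg
    rw [mem_Icc] at hg
    have hNg1 : 1 ≤ N / g := (Nat.one_le_div_iff hg.1).2 hg.2
    have hNg2 : N / g ≤ N := Nat.div_le_self N g
    have hNg2r : ((N / g : ℕ) : ℝ) ≤ N := by exact_mod_cast hNg2
    have h3 := hC T hT S x hS (N / g) hNg1 (by linarith) (fun _ => 1) (fun _ _ => by simp)
    rw [← hs, hR] at h3
    rw [Real.rpow_one, Real.rpow_two]
    exact h3
  calc ZZ I S ≤ ∑ g ∈ Icc 1 N, SS S (fun _ => 1) (N / g) := ZZ_le hI S
    _ ≤ ∑ g ∈ Icc 1 N, C * T ^ (ε / 2) * (a * (((N / g : ℕ) : ℝ)) ^ (1 : ℝ) +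
          s * (((N / g : ℕ) : ℝ)) ^ (2 : ℝ)) := sum_le_sum hg
    _ = C * T ^ (ε / 2) * (a * ∑ g ∈ Icc 1 N, (((N / g : ℕ) : ℝ)) ^ (1 : ℝ) +
          s * ∑ g ∈ Icc 1 N, (((N / g : ℕ) : ℝ)) ^ (2 : ℝ)) := by
        rw [← mul_sum, sum_add_distrib, ← mul_sum, ← mul_sum]
    _ ≤ C * T ^ (ε / 2) * (a * ((N : ℝ) ^ (1 : ℝ) * (1 + Real.log N)) +
          s * ((N : ℝ) ^ (2 : ℝ) * (1 + Real.log N))) := by
        have h1 := gcd_sum N 1 le_rfl
        have h2 := gcd_sum N 2 one_le_two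
        gcongr
    _ = C * T ^ (ε / 2) * (R3 s T N * (1 + Real.log N)) := by
        rw [hR, Real.rpow_one, Real.rpow_two]; ring
    _ ≤ C * T ^ (ε / 2) * (R3 s T N * (C2 * (2 ^ (ε / 2) * T ^ (ε / 2)))) := by
        have := R3_nonneg hs0 hT0.le (by linarith : (0 : ℝ) ≤ N)
        gcongr
    _ = (C * C2 * 2 ^ (ε / 2)) * (T ^ (ε / 2) * T ^ (ε / 2)) * R3 s T N := by ring
    _ = _ := by rw [← Real.rpow_add hT0, add_halves]

end Pool.Agent.X108.HB
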