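import Pool.Agent.X108.HB.ZZ

/-!
# Dirichlet polynomials on sumsets
-/

set_option autoImplicit false

namespace Pool.Agent.X108.HB

open Finset Pool.Agent.Y766 Pool.Agent.Y766.PS

/-- `∑_{n ∈ I} a_n n^{it}` -/
noncomputable def DD (I : Finset ℕ) (a : ℕ → ℂ) (t : ℝ) : ℂ := ∑ n ∈ I, a n * ee t (n : ℚ)

lemma DD_sq {I : Finset ℕ} (hI : ∀ n ∈ I, 1 ≤ n) (a : ℕ → ℂ) (t : ℝ) :
    ((‖DD I a t‖ ^ 2 : ℝ) : ℂ) = ∑ m ∈ I, ∑ n ∈ I,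
      (a m * (starRingEnd ℂ) (a n)) * ee t ((m : ℚ) / n) := by
  rw [Complex.ofReal_pow, ← Complex.mul_conj', DD, map_sum, Finset.sum_mul_sum]
  apply sum_congr rfl
  intro m hm
  apply sum_congr rfl
  intro n hn
  have h1 : (0 : ℚ) < m := by exact_mod_cast hI m hm
  have h2 : (0 : ℚ) < n := by exact_mod_cast hI n hn
  rw [ee_div t h1 h2, map_mul]
  ring

/-- the double sum with two weights -/
lemma bil {ι κ : Type*} {I : Finset ℕ} (hI : ∀ n ∈ I, 1 ≤ n) (a : ℕ → ℂ)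
    (ha : ∀ n ∈ I, ‖a n‖ ≤ 1) (A : Finset ι) (B : Finset κ) (f : ι → ℝ) (g : κ → ℝ) (v : ℝ) :
    ∑ x ∈ A, ∑ y ∈ B, ‖DD I a (v + f x + g y)‖ ^ 2 ≤
      Real.sqrt (∑ m ∈ I, ∑ n ∈ I, ‖∑ x ∈ A, ee (f x) ((m : ℚ) / n)‖ ^ 2) *
      Real.sqrt (∑ m ∈ I, ∑ n ∈ I, ‖∑ y ∈ B, ee (g y) ((m : ℚ) / n)‖ ^ 2) := by
  set Q := ∑ x ∈ A, ∑ y ∈ B, ‖DD I a (v + f x + g y)‖ ^ 2 with hQ
  have hQ0 : 0 ≤ Q := sum_nonneg fun _ _ => sum_nonneg fun _ _ => by positivity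
  have h1 : (Q : ℂ) = ∑ m ∈ I, ∑ n ∈ I, (a m * (starRingEnd ℂ) (a n)) * ee v ((m : ℚ) / n) *
      ((∑ x ∈ A, ee (f x) ((m : ℚ) / n)) * ∑ y ∈ B, ee (g y) ((m : ℚ) / n)) := by
    rw [hQ, Complex.ofReal_sum]
    have e1 : ∀ x ∈ A, ((∑ y ∈ B, ‖DD I a (v + f x + g y)‖ ^ 2 : ℝ) : ℂ) =
        ∑ m ∈ I, ∑ n ∈ I, (a m * (starRingEnd ℂ) (a n)) * ee v ((m : ℚ) / n) *
          (ee (f x) ((m : ℚ) / n) * ∑ y ∈ B, ee (g y) ((m : ℚ) / n)) := by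
      intro x _
      rw [Complex.ofReal_sum]
      simp_rw [DD_sq hI]
      rw [sum_comm]
      refine sum_congr rfl fun m _ => ?_
      rw [sum_comm]
      refine sum_congr rfl fun n _ => ?_
      rw [mul_sum, mul_sum]
      refine sum_congr rfl fun y _ => ?_
      rw [ee_add, ee_add]
      ring
    rw [sum_congr rfl e1, sum_comm]
    refine sum_congr rfl fun m _ => ?_
    rw [sum_comm]
    refine sum_congr rfl fun n _ => ?_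
    rw [sum_mul, mul_sum]
  have h2 : Q ≤ ∑ m ∈ I, ∑ n ∈ I, ‖∑ x ∈ A, ee (f x) ((m : ℚ) / n)‖ *
      ‖∑ y ∈ B, ee (g y) ((m : ℚ) / n)‖ := by
    have : Q ≤ ‖(Q : ℂ)‖ := by
      rw [Complex.norm_real]
      exact le_abs_self _
    refine this.trans ?_
    rw [h1]
    refine (norm_sum_le _ _).trans (sum_le_sum fun m hm => (norm_sum_le _ _).trans
      (sum_le_sum fun n hn => ?_))
    rw [norm_mul, norm_mul, norm_mul, norm_mul, ee_norm, mul_one, Complex.norm_conj]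
    have h3 := ha m hm
    have h4 := ha n hn
    have h5 : ‖a m‖ * ‖a n‖ ≤ 1 := mul_le_one₀ h3 (norm_nonneg _) h4
    exact mul_le_of_le_one_left (by positivity) h5
  refine h2.trans ?_
  rw [← sum_product', ← sum_product', ← sum_product']
  exact Real.sum_mul_le_sqrt_mul_sqrt _ _ _

/-- sums -/
theorem bil_add {I : Finset ℕ} (hI : ∀ n ∈ I, 1 ≤ n) (a : ℕ → ℂ)
    (ha : ∀ n ∈ I, ‖a n‖ ≤ 1) (A B : Finset ℝ) (v : ℝ) :
    ∑ x ∈ A, ∑ y ∈ B, ‖DD I a (v + x + y)‖ ^ 2 ≤ Real.sqrt (ZZ I A) * Real.sqrt (ZZ I B) :=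
  bil hI a ha A B (fun x => x) (fun y => y) v

/-- differences -/
theorem bil_sub {I : Finset ℕ} (hI : ∀ n ∈ I, 1 ≤ n) (a : ℕ → ℂ)
    (ha : ∀ n ∈ I, ‖a n‖ ≤ 1) (A B : Finset ℝ) (v : ℝ) :
    ∑ x ∈ A, ∑ y ∈ B, ‖DD I a (v + x - y)‖ ^ 2 ≤ Real.sqrt (ZZ I A) * Real.sqrt (ZZ I B) := by
  have h := bil hI a ha A B (fun x => x) (fun y => -y) v
  have e : ∑ m ∈ I, ∑ n ∈ I, ‖∑ y ∈ B, ee (-y) ((m : ℚ) / n)‖ ^ 2 = ZZ I B := by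
    unfold ZZ
    refine sum_congr rfl fun m _ => sum_congr rfl fun n _ => ?_
    have : ∑ y ∈ B, ee (-y) ((m : ℚ) / n) = (starRingEnd ℂ) (∑ y ∈ B, ee y ((m : ℚ) / n)) := by
      rw [map_sum]
      refine sum_congr rfl fun y _ => ?_
      rw [ee_conj]
    rw [this, Complex.norm_conj]
  rw [e] at h
  exact h

/-- **the additive energy of a set of large values** -/
theorem energy_large {I : Finset ℕ} (hI : ∀ n ∈ I, 1 ≤ n) (a : ℕ → ℂ)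
    (ha : ∀ n ∈ I, ‖a n‖ ≤ 1) (W : Finset ℝ) (V : ℝ) (hV : 0 ≤ V)
    (hW : ∀ t ∈ W, V ≤ ‖DD I a t‖) :
    V ^ 2 * (W.addEnergy W : ℕ) ≤ W.card * ZZ I W := by
  classical
  have h1 : V ^ 2 * (W.addEnergy W : ℕ) ≤ ∑ z ∈ W, ∑ x ∈ W, ∑ y ∈ W, ‖DD I a (z + x - y)‖ ^ 2 := by
    set P := ((W ×ˢ W) ×ˢ W ×ˢ W).filter (fun x : (ℝ × ℝ) × ℝ × ℝ => x.1.1 + x.2.1 = x.1.2 + x.2.2)
      with hP
    have e0 : W.addEnergy W = P.card := rfl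
    rw [e0]
    have hmem : ∀ p ∈ P, p.1.1 ∈ W ∧ p.1.2 ∈ W ∧ p.2.1 ∈ W ∧ p.2.2 ∈ W ∧
        p.1.1 + p.2.1 = p.1.2 + p.2.2 := by
      intro p hp
      rw [hP, mem_filter, mem_product, mem_product, mem_product] at hp
      exact ⟨hp.1.1.1, hp.1.1.2, hp.1.2.1, hp.1.2.2, hp.2⟩
    have e1 : V ^ 2 * (P.card : ℝ) ≤ ∑ p ∈ P, ‖DD I a (p.1.1 + p.2.1 - p.1.2)‖ ^ 2 := by
      rw [mul_comm, ← nsmul_eq_mul, ← sum_const]
      refine sum_le_sum fun p hp => ?_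
      obtain ⟨h1, h2, h3, h4, h5⟩ := hmem p hp
      have : p.1.1 + p.2.1 - p.1.2 = p.2.2 := by linarith
      rw [this]
      exact pow_le_pow_left₀ hV (hW _ h4) 2
    refine e1.trans ?_
    have hinj : Set.InjOn (fun p : (ℝ × ℝ) × ℝ × ℝ => (p.1.1, p.2.1, p.1.2)) (P : Set _) := by
      intro p hp q hq hpq
      obtain ⟨-, -, -, -, h5⟩ := hmem p hp
      obtain ⟨-, -, -, -, h6⟩ := hmem q hq
      simp only [Prod.mk.injEq] at hpq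
      obtain ⟨k1, k2, k3⟩ := hpq
      refine Prod.ext (Prod.ext k1 k3) (Prod.ext k2 ?_)
      have : p.2.2 = p.1.1 + p.2.1 - p.1.2 := by linarith
      rw [this, k1, k2, k3]
      linarith
    have e2 : ∑ p ∈ P, ‖DD I a (p.1.1 + p.2.1 - p.1.2)‖ ^ 2 =
        ∑ q ∈ P.image (fun p : (ℝ × ℝ) × ℝ × ℝ => (p.1.1, p.2.1, p.1.2)),
          ‖DD I a (q.1 + q.2.1 - q.2.2)‖ ^ 2 := by
      rw [sum_image hinj]
    rw [e2]
    have e3 : ∑ z ∈ W, ∑ x ∈ W, ∑ y ∈ W, ‖DD I a (z + x - y)‖ ^ 2 =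
        ∑ q ∈ W ×ˢ W ×ˢ W, ‖DD I a (q.1 + q.2.1 - q.2.2)‖ ^ 2 := by
      rw [sum_product]
      refine sum_congr rfl fun z _ => ?_
      rw [sum_product]
    rw [e3]
    refine sum_le_sum_of_subset_of_nonneg ?_ fun _ _ _ => by positivity
    intro q hq
    rw [mem_image] at hq
    obtain ⟨p, hp, rfl⟩ := hq
    obtain ⟨h1, h2, h3, h4, h5⟩ := hmem p hp
    rw [mem_product, mem_product]
    exact ⟨h1, h3, h2⟩
  refine h1.trans ?_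
  have h2 : ∀ z ∈ W, ∑ x ∈ W, ∑ y ∈ W, ‖DD I a (z + x - y)‖ ^ 2 ≤ ZZ I W := by
    intro z _
    have := bil_sub hI a ha W W z
    rwa [Real.mul_self_sqrt (ZZ_nonneg I W)] at this
  refine (sum_le_sum h2).trans (le_of_eq ?_)
  rw [sum_const, nsmul_eq_mul]

end Pool.Agent.X108.HB
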