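import Pool.Agent.X108.HB.LS

/-!
# The multiplicative energy of weights on the rationals of bounded height
-/

set_option autoImplicit false

namespace Pool.Agent.X108.HB

open Finset Pool.Agent.Y766 Pool.Agent.Y766.PS

/-- numerator and denominator of `r`, freed from the common factors with those of `s`, and
the same for `s` -/
def qq (p : ℚ × ℚ) : (ℕ × ℕ) × (ℕ × ℕ) :=
  ((p.1.num.natAbs / Nat.gcd p.1.num.natAbs p.2.num.natAbs, p.1.den / Nat.gcd p.1.den p.2.den),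
   (p.2.num.natAbs / Nat.gcd p.1.num.natAbs p.2.num.natAbs, p.2.den / Nat.gcd p.1.den p.2.den))

/-- properties of `qq` -/
lemma qq_spec {r s : ℚ} (hr : 0 < r) (hs : 0 < s) :
    (r / s).num.natAbs = (qq (r, s)).1.1 * (qq (r, s)).2.2 ∧
    (r / s).den = (qq (r, s)).1.2 * (qq (r, s)).2.1 ∧
    (qq (r, s)).1.1 ∣ r.num.natAbs ∧ (qq (r, s)).1.2 ∣ r.den ∧
    (qq (r, s)).2.1 ∣ s.num.natAbs ∧ (qq (r, s)).2.2 ∣ s.den ∧
    0 < (qq (r, s)).1.1 ∧ 0 < (qq (r, s)).1.2 ∧ 0 < (qq (r, s)).2.1 ∧ 0 < (qq (r, s)).2.2 := by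
  set a := r.num.natAbs with ha
  set b := r.den with hb
  set c := s.num.natAbs with hc
  set d := s.den with hd
  have ha0 : 0 < a := num_pos hr
  have hb0 : 0 < b := r.den_pos
  have hc0 : 0 < c := num_pos hs
  have hd0 : 0 < d := s.den_pos
  set g := Nat.gcd a c with hg
  set h := Nat.gcd b d with hh
  have hg0 : 0 < g := Nat.gcd_pos_of_pos_left _ ha0
  have hh0 : 0 < h := Nat.gcd_pos_of_pos_left _ hb0
  obtain ⟨a', ea⟩ := Nat.gcd_dvd_left a c
  obtain ⟨c', ec⟩ := Nat.gcd_dvd_right a c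
  obtain ⟨b', eb⟩ := Nat.gcd_dvd_left b d
  obtain ⟨d', ed⟩ := Nat.gcd_dvd_right b d
  rw [← hg] at ea ec
  rw [← hh] at eb ed
  have e1 : (qq (r, s)).1.1 = a' := by
    show a / g = a'
    rw [ea, Nat.mul_div_cancel_left _ hg0]
  have e2 : (qq (r, s)).1.2 = b' := by
    show b / h = b'
    rw [eb, Nat.mul_div_cancel_left _ hh0]
  have e3 : (qq (r, s)).2.1 = c' := by
    show c / g = c'
    rw [ec, Nat.mul_div_cancel_left _ hg0]
  have e4 : (qq (r, s)).2.2 = d' := by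
    show d / h = d'
    rw [ed, Nat.mul_div_cancel_left _ hh0]
  have ha'0 : 0 < a' := Nat.pos_of_ne_zero (by rintro rfl; omega)
  have hb'0 : 0 < b' := Nat.pos_of_ne_zero (by rintro rfl; omega)
  have hc'0 : 0 < c' := Nat.pos_of_ne_zero (by rintro rfl; omega)
  have hd'0 : 0 < d' := Nat.pos_of_ne_zero (by rintro rfl; omega)
  have cab : Nat.Coprime a b := r.reduced
  have ccd : Nat.Coprime c d := s.reduced
  have cac : Nat.Coprime a' c' := by
    have h6 : g * Nat.gcd a' c' = g * 1 := by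
      rw [← Nat.gcd_mul_left, ← ea, ← ec, mul_one]
    exact Nat.eq_of_mul_eq_mul_left hg0 h6
  have cbd : Nat.Coprime b' d' := by
    have h6 : h * Nat.gcd b' d' = h * 1 := by
      rw [← Nat.gcd_mul_left, ← eb, ← ed, mul_one]
    exact Nat.eq_of_mul_eq_mul_left hh0 h6
  have cab' : Nat.Coprime a' b' :=
    Nat.Coprime.coprime_dvd_left (Dvd.intro_left g ea.symm)
      (Nat.Coprime.coprime_dvd_right (Dvd.intro_left h eb.symm) cab)
  have ccd' : Nat.Coprime c' d' :=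
    Nat.Coprime.coprime_dvd_left (Dvd.intro_left g ec.symm)
      (Nat.Coprime.coprime_dvd_right (Dvd.intro_left h ed.symm) ccd)
  have hcop : Nat.Coprime (a' * d') (b' * c') :=
    Nat.Coprime.mul_left (Nat.Coprime.mul_right cab' cac)
      (Nat.Coprime.mul_right cbd.symm ccd'.symm)
  have er : r = (a : ℚ) / b := rat_eq hr
  have es : s = (c : ℚ) / d := rat_eq hs
  have hq : r / s = ((a' * d' : ℕ) : ℚ) / ((b' * c' : ℕ) : ℚ) := by
    have q1 : (g : ℚ) ≠ 0 := by exact_mod_cast hg0.ne'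
    have q2 : (h : ℚ) ≠ 0 := by exact_mod_cast hh0.ne'
    have q3 : (a' : ℚ) ≠ 0 := by exact_mod_cast ha'0.ne'
    have q4 : (b' : ℚ) ≠ 0 := by exact_mod_cast hb'0.ne'
    have q5 : (c' : ℚ) ≠ 0 := by exact_mod_cast hc'0.ne'
    have q6 : (d' : ℚ) ≠ 0 := by exact_mod_cast hd'0.ne'
    rw [er, es, ea, eb, ec, ed]
    push_cast
    field_simp
  obtain ⟨n1, n2⟩ := nd_of_coprime (Nat.mul_pos ha'0 hd'0) (Nat.mul_pos hb'0 hc'0) hcop
  rw [← hq] at n1 n2
  rw [e1, e2, e3, e4]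
  exact ⟨n1, n2, Dvd.intro_left g ea.symm, Dvd.intro_left h eb.symm, Dvd.intro_left g ec.symm,
    Dvd.intro_left h ed.symm, ha'0, hb'0, hc'0, hd'0⟩

/-- the cross relations which allow to recover one member of the pair from the other -/
lemma qq_cross {r s : ℚ} (hr : 0 < r) (hs : 0 < s) :
    r.num.natAbs * (qq (r, s)).2.1 = s.num.natAbs * (qq (r, s)).1.1 ∧
    r.den * (qq (r, s)).2.2 = s.den * (qq (r, s)).1.2 := by
  set a := r.num.natAbs with ha
  set b := r.den with hb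
  set c := s.num.natAbs with hc
  set d := s.den with hd
  have ha0 : 0 < a := num_pos hr
  have hb0 : 0 < b := r.den_pos
  set g := Nat.gcd a c with hg
  set h := Nat.gcd b d with hh
  have hg0 : 0 < g := Nat.gcd_pos_of_pos_left _ ha0
  have hh0 : 0 < h := Nat.gcd_pos_of_pos_left _ hb0
  have ea : g * (a / g) = a := Nat.mul_div_cancel' (Nat.gcd_dvd_left a c)
  have ec : g * (c / g) = c := Nat.mul_div_cancel' (Nat.gcd_dvd_right a c)
  have eb : h * (b / h) = b := Nat.mul_div_cancel' (Nat.gcd_dvd_left b d)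
  have ed : h * (d / h) = d := Nat.mul_div_cancel' (Nat.gcd_dvd_right b d)
  constructor
  · show a * (c / g) = c * (a / g)
    calc a * (c / g) = g * (a / g) * (c / g) := by rw [ea]
      _ = g * (c / g) * (a / g) := by ring
      _ = _ := by rw [ec]
  · show b * (d / h) = d * (b / h)
    calc b * (d / h) = h * (b / h) * (d / h) := by rw [eb]
      _ = h * (d / h) * (b / h) := by ring
      _ = _ := by rw [ed]

lemma rat_ext' {r s : ℚ} (hr : 0 < r) (hs : 0 < s) (h1 : r.num.natAbs = s.num.natAbs)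
    (h2 : r.den = s.den) : r = s := by
  rw [rat_eq hr, rat_eq hs, h1, h2]

lemma qq_inj_left {r s r' s' : ℚ} (hr : 0 < r) (hs : 0 < s) (hr' : 0 < r') (hs' : 0 < s')
    (h : qq (r, s) = qq (r', s')) (e : r = r') : s = s' := by
  subst e
  obtain ⟨-, -, -, -, -, -, p1, p2, p3, p4⟩ := qq_spec hr hs
  obtain ⟨c1, c2⟩ := qq_cross hr hs
  obtain ⟨c1', c2'⟩ := qq_cross hr hs'
  rw [← h] at c1' c2'
  rw [c1] at c1'
  rw [c2] at c2'
  exact rat_ext' hs hs' (Nat.eq_of_mul_eq_mul_right p1 c1') (Nat.eq_of_mul_eq_mul_right p2 c2')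

lemma qq_inj_right {r s r' s' : ℚ} (hr : 0 < r) (hs : 0 < s) (hr' : 0 < r') (hs' : 0 < s')
    (h : qq (r, s) = qq (r', s')) (e : s = s') : r = r' := by
  subst e
  obtain ⟨-, -, -, -, -, -, p1, p2, p3, p4⟩ := qq_spec hr hs
  obtain ⟨c1, c2⟩ := qq_cross hr hs
  obtain ⟨c1', c2'⟩ := qq_cross hr' hs
  rw [← h] at c1' c2'
  rw [← c1'] at c1
  rw [← c2'] at c2
  exact rat_ext' hr hr' (Nat.eq_of_mul_eq_mul_right p3 c1) (Nat.eq_of_mul_eq_mul_right p4 c2)

/-- the correlation of the weight `u` at the ratio `κ` -/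
noncomputable def cor (F : Finset ℚ) (u : ℚ → ℝ) (κ : ℚ) : ℝ := by
  classical
  exact ∑ p ∈ (F ×ˢ F).filter (fun p => p.1 / p.2 = κ), u p.1 * u p.2

/-- **the energy inequality** -/
theorem energy {X τ : ℕ} (F : Finset ℚ) (hF : Box X X F)
    (hτ : ∀ n, 1 ≤ n → n ≤ X ^ 2 → n.divisors.card ≤ τ) (u : ℚ → ℝ) (K : Finset ℚ) :
    ∑ κ ∈ K, cor F u κ ^ 2 ≤ (τ : ℝ) ^ 6 * (∑ r ∈ F, u r ^ 2) ^ 2 := by
  classical
  set FF := F ×ˢ F with hFF
  set Q := FF.image qq with hQ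
  set kap : (ℕ × ℕ) × (ℕ × ℕ) → ℚ := fun q => ((q.1.1 * q.2.2 : ℕ) : ℚ) / ((q.1.2 * q.2.1 : ℕ) : ℚ)
    with hkap
  set xx : (ℕ × ℕ) × (ℕ × ℕ) → ℝ := fun q => ∑ p ∈ FF.filter (fun p => qq p = q), u p.1 * u p.2
    with hxx
  set Y : ℕ × ℕ → ℝ := fun ab => ∑ r ∈ F.filter (fun r => ab.1 ∣ r.num.natAbs ∧ ab.2 ∣ r.den), u r ^ 2
    with hY
  have hY0 : ∀ ab, 0 ≤ Y ab := fun ab => sum_nonneg fun _ _ => by positivity
  have hpos : ∀ p ∈ FF, 0 < p.1 ∧ 0 < p.2 := by
    intro p hp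
    rw [hFF, mem_product] at hp
    exact ⟨(hF _ hp.1).1, (hF _ hp.2).1⟩
  have hkq : ∀ p ∈ FF, kap (qq p) = p.1 / p.2 := by
    rintro ⟨r, s⟩ hp
    obtain ⟨h1, h2⟩ := hpos _ hp
    obtain ⟨e1, e2, -⟩ := qq_spec h1 h2
    simp only [hkap]
    rw [← e1, ← e2]
    exact (rat_eq (div_pos h1 h2)).symm
  -- the correlation as a sum over the classes
  have hcor : ∀ κ, cor F u κ = ∑ q ∈ Q.filter (fun q => kap q = κ), xx q := by
    intro κ
    unfold cor
    rw [← sum_fiberwise_of_maps_to (s := FF.filter (fun p => p.1 / p.2 = κ))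
      (t := Q.filter (fun q => kap q = κ)) (g := qq)]
    · refine sum_congr rfl fun q hq => ?_
      rw [mem_filter] at hq
      simp only [hxx]
      rw [filter_filter]
      refine sum_congr ?_ fun _ _ => rfl
      ext p
      rw [mem_filter, mem_filter]
      constructor
      · rintro ⟨h1, h2, h3⟩
        exact ⟨h1, h3⟩
      · rintro ⟨h1, h3⟩
        refine ⟨h1, ?_, h3⟩
        rw [← hkq p h1, h3]
        exact hq.2
    · intro p hp
      rw [mem_filter] at hp ⊢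
      refine ⟨mem_image_of_mem _ hp.1, ?_⟩
      rw [hkq p hp.1]
      exact hp.2
  -- the number of the classes of one ratio
  have hcard : ∀ κ, (Q.filter (fun q => kap q = κ)).card ≤ τ ^ 2 := by
    intro κ
    rcases (Q.filter (fun q => kap q = κ)).eq_empty_or_nonempty with he | ⟨q0, hq0⟩
    · rw [he]; simp
    · have hmem : ∀ q ∈ Q.filter (fun q => kap q = κ), 0 < κ ∧ κ.num.natAbs = q.1.1 * q.2.2 ∧
          κ.den = q.1.2 * q.2.1 ∧ 0 < q.1.1 ∧ 0 < q.1.2 ∧ κ.num.natAbs ≤ X ^ 2 ∧ κ.den ≤ X ^ 2 := by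
        intro q hq
        rw [mem_filter, hQ, mem_image] at hq
        obtain ⟨⟨⟨r, s⟩, hp, hpq⟩, hk⟩ := hq
        obtain ⟨h1, h2⟩ := hpos _ hp
        have hk2 := hkq _ hp
        rw [hpq, hk] at hk2
        obtain ⟨e1, e2, d1, d2, d3, d4, p1, p2, p3, p4⟩ := qq_spec h1 h2
        simp only at hk2
        rw [← hk2] at e1 e2
        rw [hFF, mem_product] at hp
        obtain ⟨-, b1, b2⟩ := hF _ hp.1
        obtain ⟨-, b3, b4⟩ := hF _ hp.2
        simp only at b1 b2 b3 b4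
        have f1 := Nat.le_of_dvd (num_pos h1) d1
        have f2 := Nat.le_of_dvd r.den_pos d2
        have f3 := Nat.le_of_dvd (num_pos h2) d3
        have f4 := Nat.le_of_dvd s.den_pos d4
        rw [← hpq]
        refine ⟨by rw [hk2]; exact div_pos h1 h2, e1, e2, p1, p2, ?_, ?_⟩
        · rw [e1, sq]
          exact Nat.mul_le_mul (f1.trans b1) (f4.trans b4)
        · rw [e2, sq]
          exact Nat.mul_le_mul (f2.trans b2) (f3.trans b3)
      obtain ⟨k0, -, -, -, -, k1, k2⟩ := hmem q0 hq0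
      have hle : (Q.filter (fun q => kap q = κ)).card ≤
          (κ.num.natAbs.divisors ×ˢ κ.den.divisors).card := by
        refine card_le_card_of_injOn (fun q => q.1) ?_ ?_
        · intro q hq
          obtain ⟨-, m1, m2, -, -, -, -⟩ := hmem q hq
          rw [mem_coe, mem_product, Nat.mem_divisors, Nat.mem_divisors]
          exact ⟨⟨Dvd.intro _ m1.symm, (num_pos k0).ne'⟩, ⟨Dvd.intro _ m2.symm, κ.den_pos.ne'⟩⟩
        · intro q hq q' hq' he
          obtain ⟨-, m1, m2, m3, m4, -, -⟩ := hmem q hq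
          obtain ⟨-, m1', m2', -, -, -, -⟩ := hmem q' hq'
          simp only at he
          rw [← he] at m1' m2'
          rw [m1] at m1'
          rw [m2] at m2'
          exact Prod.ext he (Prod.ext (Nat.eq_of_mul_eq_mul_left m4 m2')
            (Nat.eq_of_mul_eq_mul_left m3 m1'))
      refine hle.trans ?_
      rw [card_product, sq]
      exact Nat.mul_le_mul (hτ _ (num_pos k0) k1) (hτ _ κ.den_pos k2)
  -- one class
  have hone : ∀ q ∈ Q, xx q ^ 2 ≤ Y q.1 * Y q.2 := by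
    intro q _
    have h1 := sum_mul_sq_le_sq_mul_sq (FF.filter (fun p => qq p = q)) (fun p => u p.1)
      (fun p => u p.2)
    have hm : ∀ p ∈ FF.filter (fun p => qq p = q), 0 < p.1 ∧ 0 < p.2 ∧ p.1 ∈ F ∧ p.2 ∈ F ∧
        qq p = q := by
      intro p hp
      rw [mem_filter] at hp
      have h2 := hpos p hp.1
      have h3 := hp.1
      rw [hFF, mem_product] at h3
      exact ⟨h2.1, h2.2, h3.1, h3.2, hp.2⟩
    have h2 : ∑ p ∈ FF.filter (fun p => qq p = q), u p.1 ^ 2 ≤ Y q.1 := by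
      have hinj : Set.InjOn (fun p : ℚ × ℚ => p.1) (FF.filter (fun p => qq p = q)) := by
        rintro ⟨r, s⟩ hp ⟨r', s'⟩ hp' he
        obtain ⟨a1, a2, -, -, a5⟩ := hm _ hp
        obtain ⟨b1, b2, -, -, b5⟩ := hm _ hp'
        simp only at he
        exact Prod.ext he (qq_inj_left a1 a2 b1 b2 (a5.trans b5.symm) he)
      rw [← sum_image (f := fun r => u r ^ 2) hinj]
      refine sum_le_sum_of_subset_of_nonneg ?_ fun _ _ _ => by positivity
      intro r hr
      rw [mem_image] at hr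
      obtain ⟨⟨r', s'⟩, hp, rfl⟩ := hr
      obtain ⟨a1, a2, a3, -, a5⟩ := hm _ hp
      obtain ⟨-, -, d1, d2, -⟩ := qq_spec a1 a2
      rw [mem_filter]
      rw [← a5]
      exact ⟨a3, d1, d2⟩
    have h3 : ∑ p ∈ FF.filter (fun p => qq p = q), u p.2 ^ 2 ≤ Y q.2 := by
      have hinj : Set.InjOn (fun p : ℚ × ℚ => p.2) (FF.filter (fun p => qq p = q)) := by
        rintro ⟨r, s⟩ hp ⟨r', s'⟩ hp' he
        obtain ⟨a1, a2, -, -, a5⟩ := hm _ hp
        obtain ⟨b1, b2, -, -, b5⟩ := hm _ hp'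
        simp only at he
        exact Prod.ext (qq_inj_right a1 a2 b1 b2 (a5.trans b5.symm) he) he
      rw [← sum_image (f := fun r => u r ^ 2) hinj]
      refine sum_le_sum_of_subset_of_nonneg ?_ fun _ _ _ => by positivity
      intro r hr
      rw [mem_image] at hr
      obtain ⟨⟨r', s'⟩, hp, rfl⟩ := hr
      obtain ⟨a1, a2, -, a4, a5⟩ := hm _ hp
      obtain ⟨-, -, -, -, d3, d4, -⟩ := qq_spec a1 a2
      rw [mem_filter]
      rw [← a5]
      exact ⟨a4, d3, d4⟩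
    refine h1.trans (mul_le_mul h2 h3 (sum_nonneg fun _ _ => by positivity) (hY0 _))
  -- all classes
  set G := (Icc 1 X ×ˢ Icc 1 X : Finset (ℕ × ℕ)) with hG
  have hQG : Q ⊆ G ×ˢ G := by
    intro q hq
    rw [hQ, mem_image] at hq
    obtain ⟨⟨r, s⟩, hp, rfl⟩ := hq
    obtain ⟨h1, h2⟩ := hpos _ hp
    obtain ⟨-, -, d1, d2, d3, d4, p1, p2, p3, p4⟩ := qq_spec h1 h2
    rw [hFF, mem_product] at hp
    obtain ⟨-, b1, b2⟩ := hF _ hp.1
    obtain ⟨-, b3, b4⟩ := hF _ hp.2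
    have f1 := Nat.le_of_dvd (num_pos h1) d1
    have f2 := Nat.le_of_dvd r.den_pos d2
    have f3 := Nat.le_of_dvd (num_pos h2) d3
    have f4 := Nat.le_of_dvd s.den_pos d4
    simp only [hG, mem_product, mem_Icc]
    exact ⟨⟨⟨p1, f1.trans b1⟩, ⟨p2, f2.trans b2⟩⟩, ⟨⟨p3, f3.trans b3⟩, ⟨p4, f4.trans b4⟩⟩⟩
  have hYsum : ∑ ab ∈ G, Y ab ≤ (τ : ℝ) ^ 2 * ∑ r ∈ F, u r ^ 2 := by
    simp only [hY, sum_filter]
    rw [sum_comm, mul_sum]
    refine sum_le_sum fun r hr => ?_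
    obtain ⟨r0, r1, r2⟩ := hF r hr
    have hXX : X ≤ X ^ 2 := Nat.le_self_pow (by norm_num) X
    have hc : ((G.filter (fun ab : ℕ × ℕ => ab.1 ∣ r.num.natAbs ∧ ab.2 ∣ r.den)).card : ℝ) ≤
        (τ : ℝ) ^ 2 := by
      have h1 : (G.filter (fun ab : ℕ × ℕ => ab.1 ∣ r.num.natAbs ∧ ab.2 ∣ r.den)).card ≤
          (r.num.natAbs.divisors ×ˢ r.den.divisors).card := by
        apply card_le_card
        intro ab hab
        rw [mem_filter] at hab
        rw [mem_product, Nat.mem_divisors, Nat.mem_divisors]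
        exact ⟨⟨hab.2.1, (num_pos r0).ne'⟩, ⟨hab.2.2, r.den_pos.ne'⟩⟩
      have h2 : (r.num.natAbs.divisors ×ˢ r.den.divisors).card ≤ τ ^ 2 := by
        rw [card_product, sq]
        exact Nat.mul_le_mul (hτ _ (num_pos r0) (r1.trans hXX)) (hτ _ r.den_pos (r2.trans hXX))
      exact_mod_cast h1.trans h2
    rw [← sum_filter, sum_const, nsmul_eq_mul]
    exact mul_le_mul_of_nonneg_right hc (by positivity)
  calc ∑ κ ∈ K, cor F u κ ^ 2
      ≤ ∑ κ ∈ K, (τ : ℝ) ^ 2 * ∑ q ∈ Q.filter (fun q => kap q = κ), xx q ^ 2 := by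
        refine sum_le_sum fun κ _ => ?_
        rw [hcor κ]
        have h1 := sq_sum_le_card_mul_sum_sq (s := Q.filter (fun q => kap q = κ)) (f := xx)
        refine h1.trans (mul_le_mul_of_nonneg_right ?_ (sum_nonneg fun _ _ => by positivity))
        exact_mod_cast hcard κ
    _ = (τ : ℝ) ^ 2 * ∑ κ ∈ K, ∑ q ∈ Q.filter (fun q => kap q = κ), xx q ^ 2 := by rw [mul_sum]
    _ ≤ (τ : ℝ) ^ 2 * ∑ q ∈ Q, xx q ^ 2 := by
        refine mul_le_mul_of_nonneg_left ?_ (by positivity)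
        exact sum_fiberwise_le_sum_of_sum_fiber_nonneg (s := Q) (t := K) (g := kap)
          (fun κ _ => sum_nonneg fun _ _ => by positivity)
    _ ≤ (τ : ℝ) ^ 2 * ∑ q ∈ Q, Y q.1 * Y q.2 := by
        exact mul_le_mul_of_nonneg_left (sum_le_sum hone) (by positivity)
    _ ≤ (τ : ℝ) ^ 2 * ∑ q ∈ G ×ˢ G, Y q.1 * Y q.2 := by
        refine mul_le_mul_of_nonneg_left ?_ (by positivity)
        exact sum_le_sum_of_subset_of_nonneg hQG fun q _ _ => mul_nonneg (hY0 _) (hY0 _)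
    _ = (τ : ℝ) ^ 2 * (∑ ab ∈ G, Y ab) ^ 2 := by
        rw [sum_product, sq (∑ ab ∈ G, Y ab), sum_mul_sum]
    _ ≤ (τ : ℝ) ^ 2 * ((τ : ℝ) ^ 2 * ∑ r ∈ F, u r ^ 2) ^ 2 := by
        refine mul_le_mul_of_nonneg_left ?_ (by positivity)
        exact pow_le_pow_left₀ (sum_nonneg fun _ _ => hY0 _) hYsum 2
    _ = _ := by ring

end Pool.Agent.X108.HB
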