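import Pool.Agent.X108.HB.PW
import Pool.Agent.Y766.G5

/-!
# Bounds for the mean square of `∑_t c_t r^{it}` over the rationals of height at most `X`
-/

set_option autoImplicit false

namespace Pool.Agent.X108.HB

open Finset Pool.Agent.Y766 Pool.Agent.Y766.PS

/-- the mean square over the rationals of height at most `X` -/
noncomputable def SS (S : Finset ℝ) (c : ℝ → ℂ) (X : ℕ) : ℝ :=
  ∑ r ∈ FX X, ‖∑ t ∈ S, c t * ee t r‖ ^ 2

lemma SS_nonneg (S : Finset ℝ) (c : ℝ → ℂ) (X : ℕ) : 0 ≤ SS S c X :=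
  sum_nonneg fun _ _ => by positivity

lemma FX_card (X : ℕ) : (FX X).card ≤ X ^ 2 := by
  have h := Pool.Agent.Y766.box_card (FX_box (le_refl X))
  exact h

lemma SS_trivial (S : Finset ℝ) (c : ℝ → ℂ) (hc : ∀ t ∈ S, ‖c t‖ ≤ 1) (X : ℕ) :
    SS S c X ≤ (X : ℝ) ^ 2 * (S.card : ℝ) ^ 2 := by
  unfold SS
  calc ∑ r ∈ FX X, ‖∑ t ∈ S, c t * ee t r‖ ^ 2 ≤ ∑ r ∈ FX X, (S.card : ℝ) ^ 2 := by
        refine sum_le_sum fun r _ => pow_le_pow_left₀ (norm_nonneg _) ?_ 2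
        refine (norm_sum_le _ _).trans ?_
        calc ∑ t ∈ S, ‖c t * ee t r‖ ≤ ∑ t ∈ S, (1 : ℝ) := by
              refine sum_le_sum fun t ht => ?_
              rw [norm_mul, ee_norm, mul_one]
              exact hc t ht
          _ = _ := by simp
    _ = (FX X).card * (S.card : ℝ) ^ 2 := by rw [sum_const, nsmul_eq_mul]
    _ ≤ _ := by
        have : ((FX X).card : ℝ) ≤ (X : ℝ) ^ 2 := by exact_mod_cast FX_card X
        gcongr

/-- `1`-separated and contained in `[x, x + T]` -/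
def WS (S : Finset ℝ) (x T : ℝ) : Prop :=
  (∀ t ∈ S, ∀ u ∈ S, t ≠ u → 1 ≤ |t - u|) ∧ ∀ t ∈ S, x ≤ t ∧ t ≤ x + T

theorem SB {ε : ℝ} (hε : 0 < ε) (M : ℕ) : ∃ C : ℝ, 1 ≤ C ∧ ∀ (T : ℝ), 1 ≤ T →
    ∀ (S : Finset ℝ) (x : ℝ), WS S x T → ∀ (X m : ℕ), 1 ≤ X → 1 ≤ m → m ≤ M →
    (X : ℝ) ^ m ≤ 2 * T → ∀ (c : ℝ → ℂ), (∀ t ∈ S, ‖c t‖ ≤ 1) →
    SS S c X ^ m ≤ C * T ^ ε * (S.card : ℝ) ^ (2 * m - 1) * (T + ((X : ℝ) ^ m) ^ 2) := by
  set η : ℝ := ε / 6 with hη
  have hη0 : 0 < η := by positivity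
  set δ : ℝ := ε / (24 * (M + 1)) with hδ
  have hδ0 : 0 < δ := by positivity
  obtain ⟨C2, hC2, h2⟩ := log_absorb hη0
  obtain ⟨D, hD1, hD⟩ := Pool.Agent.H505R2.div_bound hδ0
  have h2ε : (1 : ℝ) ≤ 2 ^ ε := Real.one_le_rpow (by norm_num) hε.le
  have hC23 : 1 ≤ C2 ^ 3 := one_le_pow₀ hC2
  have hDM : 1 ≤ (2 * D) ^ (6 * M) := one_le_pow₀ (by linarith)
  refine ⟨24 * C2 ^ 3 * (2 * D) ^ (6 * M) * 2 ^ ε, ?_, ?_⟩
  · have a1 : 1 ≤ 24 * C2 ^ 3 := by linarith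
    have a2 : 1 ≤ 24 * C2 ^ 3 * (2 * D) ^ (6 * M) := by nlinarith
    nlinarith
  intro T hT S x hS X m hX hm hmM hXT c hc
  have hT0 : 0 < T := by linarith
  have h2T : 1 ≤ 2 * T := by linarith
  have h2T0 : 0 < 2 * T := by linarith
  set Y : ℕ := X ^ m with hY
  have hY1 : 1 ≤ Y := Nat.one_le_pow _ _ hX
  have hYr : (1 : ℝ) ≤ Y := by exact_mod_cast hY1
  have hY0 : (0 : ℝ) < Y := by linarith
  have hYT : (Y : ℝ) ≤ 2 * T := by rw [hY]; push_cast; exact hXT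
  set R : ℝ := D * (2 * T) ^ (2 * δ) with hR
  have hR1 : 1 ≤ R := by
    have : 1 ≤ (2 * T) ^ (2 * δ) := Real.one_le_rpow h2T (by positivity)
    nlinarith
  set τ : ℕ := ⌈R⌉₊ with hτ
  have hτR : R ≤ τ := Nat.le_ceil R
  have hτ2 : (τ : ℝ) ≤ 2 * R := by
    have := Nat.ceil_lt_add_one (show 0 ≤ R by linarith)
    rw [← hτ] at this
    linarith
  have hτd : ∀ n, 1 ≤ n → n ≤ Y ^ 2 → n.divisors.card ≤ τ := by
    intro n hn1 hn2
    have h1 := hD n (by omega)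
    have h3 : (n : ℝ) ^ δ ≤ (2 * T) ^ (2 * δ) := by
      have h4 : (n : ℝ) ≤ (2 * T) ^ (2 : ℝ) := by
        have h5 : (n : ℝ) ≤ (Y : ℝ) ^ 2 := by exact_mod_cast hn2
        have h6 : (Y : ℝ) ^ 2 ≤ (2 * T) ^ 2 := pow_le_pow_left₀ hY0.le hYT 2
        have h7 : ((2 * T) ^ (2 : ℝ) : ℝ) = (2 * T) ^ 2 := by
          rw [← Real.rpow_natCast]; norm_num
        rw [h7]
        linarith
      rw [Real.rpow_mul h2T0.le]
      exact Real.rpow_le_rpow (Nat.cast_nonneg _) h4 hδ0.le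
    have h4 : (n.divisors.card : ℝ) ≤ R := h1.trans (by rw [hR]; gcongr)
    exact_mod_cast h4.trans hτR
  have key := spec_bound (X := X) (m := m) (τ := τ) hX hm (by rw [← hY]; exact hτd) S hS.1 x T hT0.le
    hS.2 c hc
  rw [← hY] at key
  -- the divisor factor
  have hτp : (τ : ℝ) ^ (6 * m) ≤ (2 * D) ^ (6 * M) * (2 * T) ^ (ε / 2) := by
    have hτ1 : (1 : ℝ) ≤ τ := hR1.trans hτR
    calc (τ : ℝ) ^ (6 * m) ≤ (τ : ℝ) ^ (6 * M) := pow_le_pow_right₀ hτ1 (by omega)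
      _ ≤ (2 * R) ^ (6 * M) := pow_le_pow_left₀ (by linarith) hτ2 _
      _ = (2 * D) ^ (6 * M) * ((2 * T) ^ (2 * δ)) ^ (6 * M) := by
          rw [hR, ← mul_pow]; ring
      _ = (2 * D) ^ (6 * M) * (2 * T) ^ (2 * δ * (6 * M : ℕ)) := by
          rw [← Real.rpow_natCast, ← Real.rpow_natCast, ← Real.rpow_mul h2T0.le]
      _ ≤ _ := by
          apply mul_le_mul_of_nonneg_left _ (by positivity)
          apply Real.rpow_le_rpow_of_exponent_le h2T
          rw [hδ]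
          push_cast
          have hM0 : (0 : ℝ) ≤ M := Nat.cast_nonneg M
          have e : 2 * (ε / (24 * ((M : ℝ) + 1))) * (6 * M) = ε / 2 * (M / (M + 1)) := by
            field_simp
            ring
          rw [e]
          have : (M : ℝ) / (M + 1) ≤ 1 := by
            rw [div_le_one (by linarith)]
            linarith
          nlinarith
  -- the large sieve factor
  have hKL : KL T Y ≤ 24 * C2 ^ 3 * (2 * T) ^ (ε / 2) * (T + (Y : ℝ) ^ 2) := by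
    have hlog0 : 0 ≤ Real.log Y := Real.log_nonneg hYr
    have hlog : 1 + Real.log Y ≤ C2 * (2 * T) ^ η := by
      refine (h2 Y hYr).trans ?_
      have := Real.rpow_le_rpow hY0.le hYT hη0.le
      gcongr
    set Z := C2 * (2 * T) ^ η with hZ
    have hZ1 : 1 ≤ Z := by linarith
    have a1 : 2 + Real.log Y ^ 2 ≤ 2 * Z ^ 2 := by
      have : (1 + Real.log Y) ^ 2 ≤ Z ^ 2 := pow_le_pow_left₀ (by linarith) hlog 2
      nlinarith
    have a2 : (T + 1) + 4 * (Y : ℝ) ^ 2 * (2 + 3 * Real.log Y) ≤ 12 * Z * (T + (Y : ℝ) ^ 2) := by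
      have b1 : 4 * (Y : ℝ) ^ 2 * (2 + 3 * Real.log Y) ≤ 12 * (Y : ℝ) ^ 2 * Z := by
        have : 2 + 3 * Real.log Y ≤ 3 * Z := by linarith
        calc 4 * (Y : ℝ) ^ 2 * (2 + 3 * Real.log Y) ≤ 4 * (Y : ℝ) ^ 2 * (3 * Z) := by gcongr
          _ = _ := by ring
      have b2 : T + 1 ≤ 12 * Z * T := by nlinarith
      linarith
    unfold KL
    calc _ ≤ (2 * Z ^ 2) * (12 * Z * (T + (Y : ℝ) ^ 2)) :=
          mul_le_mul a1 a2 (by positivity) (by positivity)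
      _ = 24 * Z ^ 3 * (T + (Y : ℝ) ^ 2) := by ring
      _ = 24 * (C2 ^ 3 * (2 * T) ^ (ε / 2)) * (T + (Y : ℝ) ^ 2) := by
          rw [hZ, mul_pow, ← Real.rpow_natCast ((2 * T) ^ η), ← Real.rpow_mul h2T0.le]
          congr 4
          rw [hη]
          push_cast
          ring
      _ = _ := by ring
  unfold SS
  have hYeq : ((X : ℝ) ^ m) ^ 2 = (Y : ℝ) ^ 2 := by rw [hY]; push_cast; rfl
  rw [hYeq]
  refine key.trans ?_
  have hTε : (2 * T) ^ (ε / 2) * (2 * T) ^ (ε / 2) = 2 ^ ε * T ^ ε := by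
    rw [← Real.rpow_add h2T0, add_halves, Real.mul_rpow (by norm_num) hT0.le]
  have hKLpos := KL_pos hT0.le hY1
  calc (S.card : ℝ) ^ (2 * m - 1) * (KL T Y * (τ : ℝ) ^ (6 * m))
      ≤ (S.card : ℝ) ^ (2 * m - 1) * ((24 * C2 ^ 3 * (2 * T) ^ (ε / 2) * (T + (Y : ℝ) ^ 2)) *
          ((2 * D) ^ (6 * M) * (2 * T) ^ (ε / 2))) := by gcongr
    _ = 24 * C2 ^ 3 * (2 * D) ^ (6 * M) * ((2 * T) ^ (ε / 2) * (2 * T) ^ (ε / 2)) *
          (S.card : ℝ) ^ (2 * m - 1) * (T + (Y : ℝ) ^ 2) := by ring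
    _ = _ := by rw [hTε]; ring

lemma WS_card {S : Finset ℝ} {x T : ℝ} (hT : 1 ≤ T) (h : WS S x T) : (S.card : ℝ) ≤ 2 * T := by
  classical
  rcases S.eq_empty_or_nonempty with he | hne
  · rw [he]; simp; linarith
  · have hinj : Set.InjOn (fun y => ⌊y - x⌋₊) (S : Set ℝ) := by
      intro y hy z hz hyz
      by_contra hne
      have h1 := h.1 y hy z hz hne
      simp only at hyz
      have hy0 := (h.2 y hy).1
      have hz0 := (h.2 z hz).1
      have y1 := Nat.floor_le (sub_nonneg.2 hy0)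
      have y2 := Nat.lt_floor_add_one (y - x)
      have z1 := Nat.floor_le (sub_nonneg.2 hz0)
      have z2 := Nat.lt_floor_add_one (z - x)
      rw [hyz] at y1 y2
      rcases le_or_gt y z with h2 | h2
      · rw [abs_of_nonpos (by linarith)] at h1; linarith
      · rw [abs_of_pos (by linarith)] at h1; linarith
    have hmaps : Set.MapsTo (fun y => ⌊y - x⌋₊) (S : Set ℝ) (range (⌊T⌋₊ + 1)) := by
      intro y hy
      simp only [coe_range, Set.mem_Iio, Nat.lt_succ_iff]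
      apply Nat.floor_le_floor
      have := (h.2 y hy).2
      linarith
    have hcard := card_le_card_of_injOn _ hmaps hinj
    rw [card_range] at hcard
    have h7 : (S.card : ℝ) ≤ (⌊T⌋₊ : ℝ) + 1 := by exact_mod_cast hcard
    have h8 := Nat.floor_le (show 0 ≤ T by linarith)
    linarith

/-- **the clean range** -/
theorem F1 {ε : ℝ} (hε : 0 < ε) (n : ℕ) (hn : 1 ≤ n) : ∃ C : ℝ, 1 ≤ C ∧ ∀ (T : ℝ), 1 ≤ T →
    ∀ (S : Finset ℝ) (x : ℝ), WS S x T → ∀ (X : ℕ), 1 ≤ X → X ^ n ≤ S.card →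
    T ^ (n + 1) ≤ (S.card : ℝ) ^ (2 * n + 1) → ∀ (c : ℝ → ℂ), (∀ t ∈ S, ‖c t‖ ≤ 1) →
    SS S c X ≤ C * T ^ ε * (S.card : ℝ) ^ 2 * X := by
  set M : ℕ := ⌈1 / ε⌉₊ with hM
  obtain ⟨C, hC1, hC⟩ := SB hε M
  have h2ε : (1 : ℝ) ≤ 2 ^ ε := Real.one_le_rpow (by norm_num) hε.le
  refine ⟨2 * C * 2 ^ ε, by nlinarith, ?_⟩
  intro T hT S x hS X hX hXn hTn c hc
  have hT0 : 0 < T := by linarith
  have h2T0 : 0 < 2 * T := by linarith
  have hXr : (1 : ℝ) ≤ X := by exact_mod_cast hX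
  have hX0 : (0 : ℝ) < X := by linarith
  set s : ℝ := (S.card : ℝ) with hs
  have hs1 : 1 ≤ s := by
    have : 1 ≤ S.card := (Nat.one_le_pow _ _ hX).trans hXn
    rw [hs]; exact_mod_cast this
  have hs0 : 0 < s := by linarith
  have hs2T : s ≤ 2 * T := WS_card hT hS
  have hTε : (2 * T) ^ ε = 2 ^ ε * T ^ ε := Real.mul_rpow (by norm_num) hT0.le
  have hTε1 : 1 ≤ T ^ ε := Real.one_le_rpow hT hε.le
  rcases le_or_gt (X : ℝ) ((2 * T) ^ ε) with hA | hB
  · -- small `X`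
    have h1 := SS_trivial S c hc X
    rw [hTε] at hA
    calc SS S c X ≤ (X : ℝ) ^ 2 * s ^ 2 := h1
      _ = X * (X * s ^ 2) := by ring
      _ ≤ (2 ^ ε * T ^ ε) * (X * s ^ 2) := by gcongr
      _ = 1 * (2 ^ ε * T ^ ε) * (X * s ^ 2) := by ring
      _ ≤ (2 * C) * (2 ^ ε * T ^ ε) * (X * s ^ 2) := by gcongr; linarith
      _ = _ := by ring
  · have h2T1 : 1 < 2 * T := by linarith
    have hX1 : 1 < X := by
      have h1 : 1 ≤ (2 * T) ^ ε := Real.one_le_rpow h2T1.le hε.le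
      have : (1 : ℝ) < X := lt_of_le_of_lt h1 hB
      exact_mod_cast this
    set m : ℕ := Nat.log X S.card with hm
    have hS0 : S.card ≠ 0 := by
      intro h0
      rw [hs, h0] at hs1
      norm_num at hs1
    have hXm : X ^ m ≤ S.card := Nat.pow_log_le_self X hS0
    have hXm1 : S.card < X ^ (m + 1) := Nat.lt_pow_succ_log_self hX1 _
    have hnm : n ≤ m := Nat.le_log_of_pow_le hX1 hXn
    have hm1 : 1 ≤ m := hn.trans hnm
    have hXmr : (X : ℝ) ^ m ≤ s := by rw [hs]; exact_mod_cast hXm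
    have hXm1r : s < (X : ℝ) ^ (m + 1) := by rw [hs]; exact_mod_cast hXm1
    have hmM : m ≤ M := by
      have h1 : ((2 * T) ^ ε) ^ m ≤ 2 * T :=
        (pow_le_pow_left₀ (by positivity) hB.le m).trans (hXmr.trans hs2T)
      rw [← Real.rpow_natCast, ← Real.rpow_mul h2T0.le] at h1
      have h2 : ε * m ≤ 1 := by
        by_contra h3
        push Not at h3
        have h4 := Real.rpow_lt_rpow_of_exponent_lt h2T1 h3
        rw [Real.rpow_one] at h4
        linarith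
      have h3 : (m : ℝ) ≤ 1 / ε := by
        rw [le_div_iff₀ hε]
        linarith
      have h4 : (m : ℝ) ≤ (M : ℝ) := h3.trans (Nat.le_ceil _)
      exact_mod_cast h4
    have key := hC T hT S x hS X m hX hm1 hmM (hXmr.trans hs2T) c hc
    rw [← hs] at key
    set Y : ℝ := (X : ℝ) ^ m with hY
    have hY1 : 1 ≤ Y := one_le_pow₀ hXr
    -- `T ≤ s Y`
    have hTsY : T ≤ s * Y := by
      have h1 : (T / s) ^ (n + 1) ≤ Y ^ (n + 1) := by
        have h2 : (T / s) ^ (n + 1) ≤ s ^ n := by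
          rw [div_pow, div_le_iff₀ (by positivity)]
          calc T ^ (n + 1) ≤ s ^ (2 * n + 1) := hTn
            _ = s ^ n * s ^ (n + 1) := by rw [← pow_add]; congr 1; omega
        have h3 : s ^ n ≤ ((X : ℝ) ^ (m + 1)) ^ n := pow_le_pow_left₀ hs0.le hXm1r.le n
        have h4 : ((X : ℝ) ^ (m + 1)) ^ n ≤ Y ^ (n + 1) := by
          rw [hY, ← pow_mul, ← pow_mul]
          apply pow_le_pow_right₀ hXr
          nlinarith
        linarith
      have h2 : T / s ≤ Y := le_of_pow_le_pow_left₀ (by omega) (by positivity) h1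
      rw [div_le_iff₀ hs0] at h2
      linarith
    have hsY : Y ^ 2 ≤ s * Y := by nlinarith
    have e1 : s ^ (2 * m - 1) * s = (s ^ 2) ^ m := by
      rw [← pow_succ, ← pow_mul]
      congr 1
      omega
    have h5 : SS S c X ^ m ≤ (2 * C * T ^ ε * (s ^ 2 * X)) ^ m := by
      calc SS S c X ^ m ≤ C * T ^ ε * s ^ (2 * m - 1) * (T + Y ^ 2) := key
        _ ≤ C * T ^ ε * s ^ (2 * m - 1) * (s * Y + s * Y) := by gcongr
        _ = (2 * C * T ^ ε) * ((s ^ (2 * m - 1) * s) * Y) := by ring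
        _ = (2 * C * T ^ ε) * (s ^ 2 * X) ^ m := by rw [e1, hY, mul_pow]
        _ ≤ (2 * C * T ^ ε) ^ m * (s ^ 2 * X) ^ m := by
            apply mul_le_mul_of_nonneg_right _ (by positivity)
            apply le_self_pow₀ _ (by omega)
            nlinarith
        _ = _ := by rw [← mul_pow]
    have h6 : SS S c X ≤ 2 * C * T ^ ε * (s ^ 2 * X) :=
      le_of_pow_le_pow_left₀ (by omega) (by positivity) h5
    calc SS S c X ≤ 2 * C * T ^ ε * (s ^ 2 * X) := h6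
      _ = 2 * C * 1 * T ^ ε * s ^ 2 * X := by ring
      _ ≤ 2 * C * 2 ^ ε * T ^ ε * s ^ 2 * X := by gcongr

end Pool.Agent.X108.HB
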