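import Pool.Agent.X108.HB.PR

/-!
# Higher moments of Dirichlet polynomials on sets of small doubling
-/

set_option autoImplicit false

namespace Pool.Agent.X108.HB

open Finset Pool.Agent.Y766 Pool.Agent.Y766.PS
open scoped Pointwise

/-- the coefficients of the powers of a Dirichlet polynomial -/
noncomputable def pc (I : Finset ℕ) (b : ℕ → ℂ) (N : ℕ) : ℕ → ℕ → ℂ
  | 0 => fun n => if n = 1 then 1 else 0
  | (k + 1) => fun n => ∑ p ∈ ((Icc 1 (N ^ k)) ×ˢ I).filter (fun p => p.1 * p.2 = n),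
      pc I b N k p.1 * b p.2

lemma pc_eval {I : Finset ℕ} {N : ℕ} (hI : I ⊆ Icc 1 N) (b : ℕ → ℂ) (k : ℕ) (t : ℝ) :
    DD (Icc 1 (N ^ k)) (pc I b N k) t = DD I b t ^ k := by
  induction k with
  | zero =>
    rw [pow_zero, pow_zero]
    unfold DD pc
    simp [ee_one]
  | succ k ih =>
    rw [pow_succ (DD I b t), ← ih]
    unfold DD
    rw [sum_mul_sum, ← sum_product']
    have hmaps : ∀ p ∈ Icc 1 (N ^ k) ×ˢ I, p.1 * p.2 ∈ Icc 1 (N ^ (k + 1)) := by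
      intro p hp
      rw [mem_product, mem_Icc] at hp
      have h2 := mem_Icc.1 (hI hp.2)
      rw [mem_Icc, pow_succ]
      exact ⟨Nat.mul_pos hp.1.1 h2.1, Nat.mul_le_mul hp.1.2 h2.2⟩
    rw [← sum_fiberwise_of_maps_to hmaps]
    refine sum_congr rfl fun n _ => ?_
    show (∑ p ∈ ((Icc 1 (N ^ k)) ×ˢ I).filter (fun p => p.1 * p.2 = n),
      pc I b N k p.1 * b p.2) * ee t (n : ℚ) = _
    rw [sum_mul]
    refine sum_congr rfl fun p hp => ?_
    rw [mem_filter, mem_product, mem_Icc] at hp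
    have h1 : (0 : ℚ) < p.1 := by exact_mod_cast hp.1.1.1
    have h2 : (0 : ℚ) < p.2 := by exact_mod_cast (mem_Icc.1 (hI hp.1.2)).1
    rw [← hp.2]
    push_cast
    rw [ee_mul t h1 h2]
    ring

lemma pc_bound {I : Finset ℕ} {N K τ : ℕ} (hN : 1 ≤ N) (hI : I ⊆ Icc 1 N)
    (hτ : ∀ n, 1 ≤ n → n ≤ N ^ K → n.divisors.card ≤ τ) (b : ℕ → ℂ)
    (hb : ∀ n ∈ I, ‖b n‖ ≤ 1) (k : ℕ) (hk : k ≤ K) :
    ∀ n ∈ Icc 1 (N ^ k), ‖pc I b N k n‖ ≤ (τ : ℝ) ^ k := by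
  induction k with
  | zero =>
    intro n _
    unfold pc
    rw [pow_zero]
    split_ifs <;> simp
  | succ k ih =>
    intro n hn
    rw [mem_Icc] at hn
    have hn2 : n ≤ N ^ K := hn.2.trans (Nat.pow_le_pow_right hN hk)
    show ‖∑ p ∈ ((Icc 1 (N ^ k)) ×ˢ I).filter (fun p => p.1 * p.2 = n),
      pc I b N k p.1 * b p.2‖ ≤ _
    refine (norm_sum_le _ _).trans ?_
    have hc : (((Icc 1 (N ^ k)) ×ˢ I).filter (fun p => p.1 * p.2 = n)).card ≤ τ := by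
      refine le_trans ?_ (hτ n hn.1 hn2)
      refine card_le_card_of_injOn (fun p => p.1) ?_ ?_
      · intro p hp
        rw [mem_coe, mem_filter] at hp
        rw [mem_coe, Nat.mem_divisors]
        exact ⟨Dvd.intro _ hp.2, by omega⟩
      · intro p hp q hq hpq
        rw [mem_coe, mem_filter, mem_product, mem_Icc] at hp hq
        simp only at hpq
        refine Prod.ext hpq ?_
        have h1 : p.1 * p.2 = p.1 * q.2 := by
          rw [hp.2, hpq, hq.2]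
        exact Nat.eq_of_mul_eq_mul_left hp.1.1.1 h1
    calc ∑ p ∈ ((Icc 1 (N ^ k)) ×ˢ I).filter (fun p => p.1 * p.2 = n), ‖pc I b N k p.1 * b p.2‖
        ≤ ∑ p ∈ ((Icc 1 (N ^ k)) ×ˢ I).filter (fun p => p.1 * p.2 = n), (τ : ℝ) ^ k := by
          refine sum_le_sum fun p hp => ?_
          rw [mem_filter, mem_product] at hp
          rw [norm_mul]
          calc ‖pc I b N k p.1‖ * ‖b p.2‖ ≤ (τ : ℝ) ^ k * 1 := by
                apply mul_le_mul (ih (by omega) p.1 hp.1.1) (hb _ hp.1.2) (norm_nonneg _) (by positivity)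
            _ = _ := mul_one _
      _ = (((Icc 1 (N ^ k)) ×ˢ I).filter (fun p => p.1 * p.2 = n)).card * (τ : ℝ) ^ k := by
          rw [sum_const, nsmul_eq_mul]
      _ ≤ τ * (τ : ℝ) ^ k := by
          have : ((((Icc 1 (N ^ k)) ×ˢ I).filter (fun p => p.1 * p.2 = n)).card : ℝ) ≤ τ := by
            exact_mod_cast hc
          gcongr
      _ = _ := by ring

/-- **even moments** -/
theorem even_moment (n k : ℕ) (hn : 1 ≤ n) (hk : 1 ≤ k) {ε : ℝ} (hε : 0 < ε) :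
    ∃ C : ℝ, 1 ≤ C ∧ ∀ (T : ℝ), 1 ≤ T → ∀ (N : ℕ), 1 ≤ N → ∀ (I : Finset ℕ), I ⊆ Icc 1 N →
    ∀ (b : ℕ → ℂ), (∀ m ∈ I, ‖b m‖ ≤ 1) → ∀ (P X : Finset ℝ) (x y : ℝ), P.Nonempty → WS X x T →
    WS (P + X) y T → (N ^ k) ^ n ≤ X.card → T ^ (n + 1) ≤ (X.card : ℝ) ^ (2 * n + 1) →
    ∑ t ∈ P, ‖DD I b t‖ ^ (2 * k) ≤ C * T ^ ε * ((P + X).card : ℝ) * (N : ℝ) ^ k := by
  classical
  have hε2 : 0 < ε / 2 := by positivity
  obtain ⟨C1, hC1, h1⟩ := Z1 hε2 n hn
  set δ : ℝ := ε / (4 * k) with hδ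
  have hkr : (1 : ℝ) ≤ k := by exact_mod_cast hk
  have hδ0 : 0 < δ := by positivity
  obtain ⟨D, hD1, hD⟩ := Pool.Agent.H505R2.div_bound hδ0
  have h2ε : (1 : ℝ) ≤ 2 ^ (ε / 2) := Real.one_le_rpow (by norm_num) hε2.le
  have h2D : 1 ≤ (2 * D) ^ (2 * k) := one_le_pow₀ (by linarith)
  refine ⟨C1 * (2 * D) ^ (2 * k) * 2 ^ (ε / 2), ?_, ?_⟩
  · have : 1 ≤ C1 * (2 * D) ^ (2 * k) := by nlinarith
    nlinarith
  intro T hT N hN I hI b hb P X x y hP hX hPX hNX hTX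
  have hT0 : 0 < T := by linarith
  have h2T : 1 ≤ 2 * T := by linarith
  have h2T0 : 0 < 2 * T := by linarith
  have hXc : 1 ≤ X.card := (Nat.one_le_pow _ _ (Nat.one_le_pow _ _ hN)).trans hNX
  have hXP : X.card ≤ (P + X).card := card_le_card_add_left hP
  set q : ℝ := (X.card : ℝ) with hq
  set p : ℝ := ((P + X).card : ℝ) with hp
  have hq1 : 1 ≤ q := by rw [hq]; exact_mod_cast hXc
  have hq0 : 0 < q := by linarith
  have hqp : q ≤ p := by rw [hq, hp]; exact_mod_cast hXP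
  have hq2T : q ≤ 2 * T := WS_card hT hX
  set R : ℝ := D * (2 * T) ^ δ with hR
  have hR1 : 1 ≤ R := by
    have : 1 ≤ (2 * T) ^ δ := Real.one_le_rpow h2T hδ0.le
    nlinarith
  set τ : ℕ := ⌈R⌉₊ with hτ
  have hτR : R ≤ τ := Nat.le_ceil R
  have hτ2 : (τ : ℝ) ≤ 2 * R := by
    have := Nat.ceil_lt_add_one (show 0 ≤ R by linarith)
    rw [← hτ] at this
    linarith
  have hτ1 : (1 : ℝ) ≤ τ := hR1.trans hτR
  have hNk : N ^ k ≤ X.card := (Nat.le_self_pow (by omega) _).trans hNX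
  have hτd : ∀ m, 1 ≤ m → m ≤ N ^ k → m.divisors.card ≤ τ := by
    intro m hm1 hm2
    have h3 := hD m (by omega)
    have h4 : (m : ℝ) ≤ 2 * T := by
      have : (m : ℝ) ≤ q := by rw [hq]; exact_mod_cast hm2.trans hNk
      linarith
    have h5 : (m : ℝ) ^ δ ≤ (2 * T) ^ δ := Real.rpow_le_rpow (Nat.cast_nonneg _) h4 hδ0.le
    have h6 : (m.divisors.card : ℝ) ≤ R := h3.trans (by rw [hR]; gcongr)
    exact_mod_cast h6.trans hτR
  have hpc := pc_bound (K := k) hN hI hτd b hb k le_rfl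
  set c : ℂ := (((τ : ℝ) ^ k : ℝ) : ℂ)⁻¹ with hc
  have hτk : (0 : ℝ) < (τ : ℝ) ^ k := by positivity
  have hcn : ‖c‖ = ((τ : ℝ) ^ k)⁻¹ := by
    rw [hc, norm_inv, Complex.norm_real, Real.norm_eq_abs, abs_of_pos hτk]
  set J : Finset ℕ := Icc 1 (N ^ k) with hJ
  have hJ1 : ∀ m ∈ J, 1 ≤ m := fun m hm => (mem_Icc.1 hm).1
  set a' : ℕ → ℂ := fun m => c * pc I b N k m with ha'
  have ha'1 : ∀ m ∈ J, ‖a' m‖ ≤ 1 := by
    intro m hm
    simp only [ha']
    rw [norm_mul, hcn, inv_mul_le_iff₀ hτk, mul_one]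
    exact hpc m hm
  have hDD : ∀ t, ‖DD J a' t‖ ^ 2 = (((τ : ℝ) ^ k) ^ 2)⁻¹ * ‖DD I b t‖ ^ (2 * k) := by
    intro t
    have e1 : DD J a' t = c * DD I b t ^ k := by
      rw [← pc_eval hI b k t]
      unfold DD
      rw [mul_sum]
      refine sum_congr rfl fun m _ => ?_
      simp only [ha']
      ring
    rw [e1, norm_mul, hcn, norm_pow, mul_pow, inv_pow]
    congr 1
    rw [← pow_mul, mul_comm]
  have key := moment_sumset hJ1 a' ha'1 P X
  have hN1 : 1 ≤ N ^ k := Nat.one_le_pow _ _ hN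
  have z1 := h1 T hT X x hX (N ^ k) hN1 hNX hTX J (Finset.Subset.refl _)
  have z2 := h1 T hT (P + X) y hPX (N ^ k) hN1 (hNX.trans hXP) (by
    refine hTX.trans ?_
    have : (X.card : ℝ) ≤ ((P + X).card : ℝ) := by exact_mod_cast hXP
    gcongr) J (Finset.Subset.refl _)
  rw [← hq] at z1 key
  rw [← hp] at z2
  push_cast at z1 z2
  set Y : ℝ := C1 * T ^ (ε / 2) * (N : ℝ) ^ k with hY
  have hNr : (0 : ℝ) < N := by exact_mod_cast hN
  have hY0 : 0 ≤ Y := by positivity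
  have h3 : Real.sqrt (ZZ J (P + X)) * Real.sqrt (ZZ J X) ≤ Y * (p * q) := by
    have a1 : Real.sqrt (ZZ J (P + X)) ≤ Real.sqrt (Y * p ^ 2) := by
      apply Real.sqrt_le_sqrt
      refine z2.trans (le_of_eq ?_)
      rw [hY]; ring
    have a2 : Real.sqrt (ZZ J X) ≤ Real.sqrt (Y * q ^ 2) := by
      apply Real.sqrt_le_sqrt
      refine z1.trans (le_of_eq ?_)
      rw [hY]; ring
    calc _ ≤ Real.sqrt (Y * p ^ 2) * Real.sqrt (Y * q ^ 2) := by gcongr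
      _ = Real.sqrt ((Y * (p * q)) ^ 2) := by
          rw [← Real.sqrt_mul (by positivity)]
          congr 1
          ring
      _ = _ := Real.sqrt_sq (by positivity)
  have h4 : q * ((((τ : ℝ) ^ k) ^ 2)⁻¹ * ∑ t ∈ P, ‖DD I b t‖ ^ (2 * k)) ≤ q * (Y * p) := by
    calc q * ((((τ : ℝ) ^ k) ^ 2)⁻¹ * ∑ t ∈ P, ‖DD I b t‖ ^ (2 * k))
        = q * ∑ t ∈ P, ‖DD J a' t‖ ^ 2 := by
          rw [mul_sum]
          congr 1
          refine sum_congr rfl fun t _ => ?_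
          rw [hDD]
      _ ≤ _ := key
      _ ≤ Y * (p * q) := h3
      _ = _ := by ring
  have h5 := le_of_mul_le_mul_left h4 hq0
  rw [inv_mul_le_iff₀ (by positivity)] at h5
  have h6 : ((τ : ℝ) ^ k) ^ 2 ≤ (2 * D) ^ (2 * k) * (2 ^ (ε / 2) * T ^ (ε / 2)) := by
    calc ((τ : ℝ) ^ k) ^ 2 = (τ : ℝ) ^ (2 * k) := by rw [← pow_mul, mul_comm]
      _ ≤ (2 * R) ^ (2 * k) := pow_le_pow_left₀ (by linarith) hτ2 _
      _ = (2 * D) ^ (2 * k) * ((2 * T) ^ δ) ^ (2 * k) := by rw [hR, ← mul_pow]; ring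
      _ = (2 * D) ^ (2 * k) * (2 * T) ^ (ε / 2) := by
          rw [← Real.rpow_natCast ((2 * T) ^ δ), ← Real.rpow_mul h2T0.le]
          congr 2
          rw [hδ]
          push_cast
          field_simp
          ring
      _ = _ := by rw [Real.mul_rpow (by norm_num) hT0.le]
  calc ∑ t ∈ P, ‖DD I b t‖ ^ (2 * k) ≤ ((τ : ℝ) ^ k) ^ 2 * (Y * p) := h5
    _ ≤ ((2 * D) ^ (2 * k) * (2 ^ (ε / 2) * T ^ (ε / 2))) * (Y * p) := by gcongr
    _ = (C1 * (2 * D) ^ (2 * k) * 2 ^ (ε / 2)) * (T ^ (ε / 2) * T ^ (ε / 2)) * p * (N : ℝ) ^ k := by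
        rw [hY]; ring
    _ = _ := by rw [← Real.rpow_add hT0, add_halves]

/-- **all moments** -/
theorem all_moments (n k : ℕ) (hn : 1 ≤ n) (hk : 1 ≤ k) {ε : ℝ} (hε : 0 < ε) :
    ∃ C : ℝ, 1 ≤ C ∧ ∀ (T : ℝ), 1 ≤ T → ∀ (N : ℕ), 1 ≤ N → ∀ (I : Finset ℕ), I ⊆ Icc 1 N →
    ∀ (b : ℕ → ℂ), (∀ m ∈ I, ‖b m‖ ≤ 1) → ∀ (P X : Finset ℝ) (x y : ℝ), WS X x T →
    WS (P + X) y T → (N ^ k) ^ n ≤ X.card → T ^ (n + 1) ≤ (X.card : ℝ) ^ (2 * n + 1) →
    ∀ r : ℝ, 0 < r → r ≤ 2 * k →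
    ∑ t ∈ P, ‖DD I b t‖ ^ r ≤ C * T ^ ε * ((P + X).card : ℝ) * (N : ℝ) ^ (r / 2) := by
  classical
  obtain ⟨C, hC1, hC⟩ := even_moment n k hn hk hε
  refine ⟨C, hC1, ?_⟩
  intro T hT N hN I hI b hb P X x y hX hPX hNX hTX r hr0 hr
  have hT0 : 0 < T := by linarith
  have hNr : (0 : ℝ) < N := by exact_mod_cast hN
  have hkr : (1 : ℝ) ≤ k := by exact_mod_cast hk
  rcases P.eq_empty_or_nonempty with hPe | hP
  · rw [hPe, sum_empty]
    positivity
  have h1 := hC T hT N hN I hI b hb P X x y hP hX hPX hNX hTX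
  have hXc : 1 ≤ X.card := (Nat.one_le_pow _ _ (Nat.one_le_pow _ _ hN)).trans hNX
  have hPp : P.card ≤ (P + X).card := card_le_card_add_right (card_pos.1 hXc)
  set p : ℝ := ((P + X).card : ℝ) with hp
  have hPr : (P.card : ℝ) ≤ p := by rw [hp]; exact_mod_cast hPp
  have hP0 : (0 : ℝ) < P.card := by exact_mod_cast hP.card_pos
  have hp0 : 0 < p := by linarith
  have hTε : 1 ≤ T ^ ε := Real.one_le_rpow hT hε.le
  set θ : ℝ := r / (2 * k) with hθ
  have hθ0 : 0 < θ := by positivity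
  have hθ1 : θ ≤ 1 := by rw [hθ, div_le_one (by positivity)]; exact hr
  -- Jensen for the concave power `θ`
  have h2 : ∑ t ∈ P, ‖DD I b t‖ ^ r ≤ (P.card : ℝ) ^ (1 - θ) *
      (∑ t ∈ P, ‖DD I b t‖ ^ (2 * k)) ^ θ := by
    rcases hθ1.eq_or_lt with h3 | h3
    · have hr2 : r = ((2 * k : ℕ) : ℝ) := by
        rw [hθ, div_eq_one_iff_eq (by positivity)] at h3
        push_cast
        exact h3
      rw [h3, sub_self, Real.rpow_zero, one_mul, Real.rpow_one, hr2]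
      refine le_of_eq (sum_congr rfl fun t _ => ?_)
      rw [Real.rpow_natCast]
    · have hconj : (1 / (1 - θ)).HolderConjugate (1 / θ) := by
        rw [Real.holderConjugate_iff]
        refine ⟨?_, ?_⟩
        · rw [lt_div_iff₀ (by linarith)]; linarith
        · rw [one_div, inv_inv, one_div, inv_inv]; ring
      have h4 := Real.inner_le_Lp_mul_Lq_of_nonneg P hconj (f := fun _ => (1 : ℝ))
        (g := fun t => ‖DD I b t‖ ^ r) (fun _ _ => zero_le_one)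
        (fun t _ => Real.rpow_nonneg (norm_nonneg _) _)
      simp only [one_mul, Real.one_rpow, sum_const, nsmul_eq_mul, mul_one, one_div, inv_inv] at h4
      refine h4.trans (le_of_eq ?_)
      congr 2
      refine sum_congr rfl fun t _ => ?_
      rw [← Real.rpow_mul (norm_nonneg _), ← Real.rpow_natCast]
      congr 1
      rw [hθ]
      push_cast
      field_simp
  refine h2.trans ?_
  have h5 : 0 ≤ ∑ t ∈ P, ‖DD I b t‖ ^ (2 * k) := sum_nonneg fun _ _ => by positivity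
  calc (P.card : ℝ) ^ (1 - θ) * (∑ t ∈ P, ‖DD I b t‖ ^ (2 * k)) ^ θ
      ≤ p ^ (1 - θ) * (C * T ^ ε * p * (N : ℝ) ^ k) ^ θ := by
        apply mul_le_mul
        · exact Real.rpow_le_rpow hP0.le hPr (by linarith)
        · exact Real.rpow_le_rpow h5 h1 hθ0.le
        · positivity
        · positivity
    _ = (C * T ^ ε) ^ θ * (p ^ (1 - θ) * p ^ θ) * ((N : ℝ) ^ k) ^ θ := by
        rw [Real.mul_rpow (by positivity) (by positivity), Real.mul_rpow (by positivity) hp0.le]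
        ring
    _ = (C * T ^ ε) ^ θ * p * (N : ℝ) ^ (r / 2) := by
        rw [← Real.rpow_add hp0, sub_add_cancel, Real.rpow_one, ← Real.rpow_natCast (N : ℝ) k,
          ← Real.rpow_mul hNr.le]
        congr 2
        rw [hθ]
        field_simp
    _ ≤ (C * T ^ ε) * p * (N : ℝ) ^ (r / 2) := by
        have h6 : 1 ≤ C * T ^ ε := by nlinarith
        have h7 : (C * T ^ ε) ^ θ ≤ C * T ^ ε := by
          calc (C * T ^ ε) ^ θ ≤ (C * T ^ ε) ^ (1 : ℝ) := Real.rpow_le_rpow_of_exponent_le h6 hθ1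
            _ = _ := Real.rpow_one _
        gcongr
    _ = _ := by ring

end Pool.Agent.X108.HB
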