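import Pool.Agent.TH705.DL.Block
import Pool.Agent.Y766.F1
import Pool.Agent.Y766.G3

/-!
# Exponential sums with the frequencies `log r`, `r` rational: the mean value theorem
-/

set_option autoImplicit false

namespace Pool.Agent.X108.HB

open Finset MeasureTheory Pool.Agent.Y766 Pool.Agent.Y766.PS

/-- the positive rationals of height at most `X` -/
noncomputable def FX (X : ℕ) : Finset ℚ := ratset X (fun _ => True)

lemma mem_FX {X : ℕ} {r : ℚ} : r ∈ FX X ↔ 0 < r ∧ r.num.natAbs ≤ X ∧ r.den ≤ X := by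
  unfold FX
  constructor
  · intro h
    exact ratset_box _ _ r h
  · rintro ⟨h1, h2, h3⟩
    rw [mem_ratset]
    refine ⟨⟨r.num.natAbs, r.den, num_pos h1, h2, r.den_pos, h3, r.reduced, rat_eq h1⟩, trivial⟩

/-- `r^{it}` -/
noncomputable def ee (t : ℝ) (r : ℚ) : ℂ := Complex.exp (((t * Real.log (r : ℝ) : ℝ) : ℂ) * Complex.I)

lemma ee_norm (t : ℝ) (r : ℚ) : ‖ee t r‖ = 1 := by
  unfold ee
  rw [Complex.norm_exp_ofReal_mul_I]

lemma ee_conj (t : ℝ) (r : ℚ) : (starRingEnd ℂ) (ee t r) = ee (-t) r := by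
  unfold ee
  rw [← Complex.exp_conj, map_mul, Complex.conj_I, Complex.conj_ofReal]
  congr 1
  push_cast
  ring

lemma ee_mul (t : ℝ) {r s : ℚ} (hr : 0 < r) (hs : 0 < s) : ee t (r * s) = ee t r * ee t s := by
  unfold ee
  rw [← Complex.exp_add]
  congr 1
  have hr' : (0 : ℝ) < r := by exact_mod_cast hr
  have hs' : (0 : ℝ) < s := by exact_mod_cast hs
  push_cast
  rw [Real.log_mul hr'.ne' hs'.ne']
  push_cast
  ring

lemma ee_div (t : ℝ) {r s : ℚ} (hr : 0 < r) (hs : 0 < s) :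
    ee t (r / s) = ee t r * (starRingEnd ℂ) (ee t s) := by
  rw [ee_conj]
  unfold ee
  rw [← Complex.exp_add]
  congr 1
  have hr' : (0 : ℝ) < r := by exact_mod_cast hr
  have hs' : (0 : ℝ) < s := by exact_mod_cast hs
  push_cast
  rw [Real.log_div hr'.ne' hs'.ne']
  push_cast
  ring

lemma ee_add (t u : ℝ) (r : ℚ) : ee (t + u) r = ee t r * ee u r := by
  unfold ee
  rw [← Complex.exp_add]
  congr 1
  push_cast
  ring

lemma ee_one (t : ℝ) : ee t 1 = 1 := by
  unfold ee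
  simp

/-- the sum `∑ b_r r^{it}` -/
noncomputable def RP (F : Finset ℚ) (b : ℚ → ℂ) (t : ℝ) : ℂ := ∑ r ∈ F, b r * ee t r

lemma ee_cont (r : ℚ) : Continuous (fun t : ℝ => ee t r) := by
  unfold ee
  fun_prop

lemma RP_cont (F : Finset ℚ) (b : ℚ → ℂ) : Continuous (RP F b) := by
  unfold RP
  have := ee_cont
  fun_prop

lemma ee_hasDeriv (t : ℝ) (r : ℚ) :
    HasDerivAt (fun t : ℝ => ee t r) (Complex.I * (Real.log (r : ℝ) : ℂ) * ee t r) t := by
  have e : ∀ t : ℝ, ee t r = Complex.exp (Complex.I * (t : ℂ) * (Real.log (r : ℝ) : ℂ)) := by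
    intro t
    unfold ee
    congr 1
    push_cast
    ring
  have h1 : HasDerivAt (fun t : ℝ => (Complex.I * (t : ℂ) * (Real.log (r : ℝ) : ℂ)))
      (Complex.I * (Real.log (r : ℝ) : ℂ)) t := by
    have := ((Complex.ofRealCLM.hasDerivAt (x := t)).const_mul Complex.I).mul_const
      (Real.log (r : ℝ) : ℂ)
    simpa using this
  have h2 := h1.cexp
  simp only [e]
  convert h2 using 1
  ring

lemma rat_cast {r : ℚ} (h : 0 < r) : (r : ℝ) = (r.num.natAbs : ℝ) / (r.den : ℝ) := by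
  have h9 : ((r : ℚ) : ℝ) = (((r.num.natAbs : ℚ) / (r.den : ℚ) : ℚ) : ℝ) := by rw [← rat_eq h]
  rw [h9]
  push_cast
  rfl

lemma RP_hasDeriv (F : Finset ℚ) (b : ℚ → ℂ) (t : ℝ) :
    HasDerivAt (RP F b) (RP F (fun r => Complex.I * (Real.log (r : ℝ) : ℂ) * b r) t) t := by
  unfold RP
  have h : HasDerivAt (fun t : ℝ => ∑ r ∈ F, b r * ee t r)
      (∑ r ∈ F, b r * (Complex.I * (Real.log (r : ℝ) : ℂ) * ee t r)) t := by
    apply HasDerivAt.fun_sum
    intro r _
    exact (ee_hasDeriv t r).const_mul (b r)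
  convert h using 1
  apply Finset.sum_congr rfl
  intro n _
  ring

/-- the logarithms of distinct rationals of height at most `X` -/
lemma log_sep {X : ℕ} {r s : ℚ} (hr : r ∈ FX X) (hs : s ∈ FX X) (hrs : r ≠ s) :
    1 / (X : ℝ) ^ 2 ≤ |Real.log (s : ℝ) - Real.log (r : ℝ)| := by
  wlog h : r < s generalizing r s
  · have := this hs hr (Ne.symm hrs) (lt_of_le_of_ne (not_lt.1 h) (Ne.symm hrs))
    rw [abs_sub_comm]
    exact this
  obtain ⟨r0, r1, r2⟩ := mem_FX.1 hr
  obtain ⟨s0, s1, s2⟩ := mem_FX.1 hs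
  have hr0 : (0 : ℝ) < r := by exact_mod_cast r0
  have hs0 : (0 : ℝ) < s := by exact_mod_cast s0
  have h1 := Real.one_sub_inv_le_log_of_pos (div_pos hs0 hr0)
  rw [Real.log_div hs0.ne' hr0.ne', inv_div] at h1
  have hX : (0 : ℝ) < X := by
    have h2 := r.den_pos
    have : 0 < X := by omega
    exact_mod_cast this
  -- `r / s ≤ 1 - 1 / X²`
  have key : (r : ℝ) / s ≤ 1 - 1 / (X : ℝ) ^ 2 := by
    set a := r.num.natAbs with ha
    set b := r.den with hb
    set c := s.num.natAbs with hc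
    set d := s.den with hd
    have er : (r : ℝ) = (a : ℝ) / b := rat_cast r0
    have es : (s : ℝ) = (c : ℝ) / d := rat_cast s0
    have hb0 : (0 : ℝ) < b := by exact_mod_cast r.den_pos
    have hd0 : (0 : ℝ) < d := by exact_mod_cast s.den_pos
    have hc0 : (0 : ℝ) < c := by exact_mod_cast num_pos s0
    have hlt : (r : ℝ) < s := by exact_mod_cast h
    rw [er, es, div_lt_div_iff₀ hb0 hd0] at hlt
    have hlt' : a * d + 1 ≤ c * b := by
      have : a * d < c * b := by exact_mod_cast hlt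
      omega
    have hlt2 : (a : ℝ) * d + 1 ≤ c * b := by exact_mod_cast hlt'
    rw [er, es]
    have e : (a : ℝ) / b / (c / d) = (a * d) / (c * b) := by field_simp
    rw [e, div_le_iff₀ (by positivity)]
    have hcb : (c : ℝ) * b ≤ X ^ 2 := by
      have h3 : (c : ℝ) ≤ X := by exact_mod_cast s1
      have h4 : (b : ℝ) ≤ X := by exact_mod_cast r2
      nlinarith
    have h5 : 1 / (X : ℝ) ^ 2 * (c * b) ≤ 1 := by
      rw [one_div, inv_mul_le_iff₀ (by positivity)]
      linarith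
    linarith
  have h2 : 1 / (X : ℝ) ^ 2 ≤ 1 - (r : ℝ) / s := by linarith
  exact (h2.trans h1).trans (le_abs_self _)

lemma log_size {X : ℕ} {r : ℚ} (hr : r ∈ FX X) : |Real.log (r : ℝ)| ≤ Real.log X := by
  obtain ⟨r0, r1, r2⟩ := mem_FX.1 hr
  set a := r.num.natAbs with ha
  set b := r.den with hb
  have er : (r : ℝ) = (a : ℝ) / b := rat_cast r0
  have hb1 : (1 : ℝ) ≤ b := by exact_mod_cast r.den_pos
  have ha1 : (1 : ℝ) ≤ a := by exact_mod_cast num_pos r0
  have haX : (a : ℝ) ≤ X := by exact_mod_cast r1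
  have hbX : (b : ℝ) ≤ X := by exact_mod_cast r2
  rw [er, Real.log_div (by positivity) (by positivity), abs_le]
  have h1 := Real.log_nonneg ha1
  have h2 := Real.log_nonneg hb1
  have h3 := Real.log_le_log (by linarith) haX
  have h4 := Real.log_le_log (by linarith) hbX
  constructor <;> linarith

/-- the sum of the reciprocals of the differences of the frequencies -/
lemma recip {X : ℕ} (hX : 1 ≤ X) {r : ℚ} (hr : r ∈ FX X) :
    ∑ s ∈ (FX X).erase r, 1 / |Real.log (s : ℝ) - Real.log (r : ℝ)| ≤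
      2 * (X : ℝ) ^ 2 * (2 + 3 * Real.log X) := by
  classical
  have hX1 : (1 : ℝ) ≤ X := by exact_mod_cast hX
  have hX0 : (0 : ℝ) < X := by linarith
  have hlog : 0 ≤ Real.log X := Real.log_nonneg hX1
  have hlogX : Real.log X ≤ X := (Real.log_le_sub_one_of_pos hX0).trans (by linarith)
  have h := sep_sum (FX X) (fun r : ℚ => (X : ℝ) ^ 2 * Real.log (r : ℝ)) (2 * (X : ℝ) ^ 3)
    (by nlinarith [pow_pos hX0 2, pow_pos hX0 3, one_le_pow₀ hX1 (n := 3)]) (by
      intro x hx y hy hxy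
      have e : |(X : ℝ) ^ 2 * Real.log (y : ℝ) - (X : ℝ) ^ 2 * Real.log (x : ℝ)| =
          (X : ℝ) ^ 2 * |Real.log (y : ℝ) - Real.log (x : ℝ)| := by
        rw [← mul_sub, abs_mul, abs_of_pos (by positivity)]
      rw [e]
      constructor
      · have := log_sep hx hy hxy
        rw [div_le_iff₀ (by positivity)] at this
        linarith
      · have h1 := log_size hx
        have h2 := log_size hy
        have h3 : |Real.log (y : ℝ) - Real.log (x : ℝ)| ≤ 2 * X := by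
          have := abs_sub (Real.log (y : ℝ)) (Real.log (x : ℝ))
          linarith
        calc (X : ℝ) ^ 2 * |Real.log (y : ℝ) - Real.log (x : ℝ)| ≤ (X : ℝ) ^ 2 * (2 * X) := by gcongr
          _ = _ := by ring) r hr
  have h4 : ∑ s ∈ (FX X).erase r, 1 / |Real.log (s : ℝ) - Real.log (r : ℝ)| =
      (X : ℝ) ^ 2 * ∑ y ∈ (FX X).erase r,
        1 / |(X : ℝ) ^ 2 * Real.log (y : ℝ) - (X : ℝ) ^ 2 * Real.log (r : ℝ)| := by
    rw [mul_sum]
    refine sum_congr rfl fun y _ => ?_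
    rw [← mul_sub, abs_mul, abs_of_pos (by positivity : (0 : ℝ) < (X : ℝ) ^ 2)]
    rcases eq_or_ne |Real.log (y : ℝ) - Real.log (r : ℝ)| 0 with h0 | h0
    · rw [h0]; simp
    · field_simp
  rw [h4]
  have h5 : 1 + Real.log (2 * (X : ℝ) ^ 3) ≤ 2 + 3 * Real.log X := by
    rw [Real.log_mul (by norm_num) (by positivity), Real.log_pow]
    have := Real.log_two_lt_d9
    push_cast
    linarith
  calc _ ≤ (X : ℝ) ^ 2 * (2 * (1 + Real.log (2 * (X : ℝ) ^ 3))) := by gcongr
    _ ≤ (X : ℝ) ^ 2 * (2 * (2 + 3 * Real.log X)) := by gcongr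
    _ = _ := by ring

/-- **mean value theorem** for the frequencies `log r` -/
theorem mean_value {X : ℕ} (hX : 1 ≤ X) (b : ℚ → ℂ) (x y : ℝ) (hxy : x ≤ y) :
    ∫ t in x..y, ‖RP (FX X) b t‖ ^ 2 ≤
      ((y - x) + 4 * (X : ℝ) ^ 2 * (2 + 3 * Real.log X)) * ∑ r ∈ FX X, ‖b r‖ ^ 2 := by
  classical
  have hX1 : (1 : ℝ) ≤ X := by exact_mod_cast hX
  have hX0 : (0 : ℝ) < X := by linarith
  set F := FX X with hF
  have hexp : ∀ t : ℝ, ((‖RP F b t‖ ^ 2 : ℝ) : ℂ) = ∑ r ∈ F, ∑ s ∈ F,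
      (b r * (starRingEnd ℂ) (b s)) *
        Complex.exp (((t * (Real.log (r : ℝ) - Real.log (s : ℝ)) : ℝ) : ℂ) * Complex.I) := by
    intro t
    rw [Complex.ofReal_pow, ← Complex.mul_conj', RP, map_sum, Finset.sum_mul_sum]
    apply sum_congr rfl
    intro n _
    apply sum_congr rfl
    intro m _
    rw [map_mul, ee_conj]
    have : Complex.exp (((t * (Real.log (n : ℝ) - Real.log (m : ℝ)) : ℝ) : ℂ) * Complex.I) =
        ee t n * ee (-t) m := by
      unfold ee
      rw [← Complex.exp_add]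
      congr 1
      push_cast
      ring
    rw [this]
    ring
  set κ : ℚ → ℚ → ℝ := fun n m => if n = m then (y - x) else
    2 * (1 / |Real.log (m : ℝ) - Real.log (n : ℝ)|) with hκ
  have hκsymm : ∀ n m, κ n m = κ m n := by
    intro n m
    simp only [hκ]
    by_cases h : n = m
    · rw [if_pos h, if_pos h.symm]
    · rw [if_neg h, if_neg (Ne.symm h), abs_sub_comm]
  have hκ0 : ∀ n m, 0 ≤ κ n m := by
    intro n m
    simp only [hκ]
    split_ifs
    · linarith
    · positivity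
  have hint : ((∫ t in x..y, ‖RP F b t‖ ^ 2 : ℝ) : ℂ) = ∑ n ∈ F, ∑ m ∈ F,
      (b n * (starRingEnd ℂ) (b m)) *
        ∫ t in x..y, Complex.exp (((t * (Real.log (n : ℝ) - Real.log (m : ℝ)) : ℝ) : ℂ) *
          Complex.I) := by
    rw [← intervalIntegral.integral_ofReal]
    simp only [hexp]
    rw [intervalIntegral.integral_finsetSum]
    · apply sum_congr rfl
      intro n _
      rw [intervalIntegral.integral_finsetSum]
      · apply sum_congr rfl
        intro m _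
        rw [intervalIntegral.integral_const_mul]
      · intro m _
        apply Continuous.intervalIntegrable
        fun_prop
    · intro n _
      apply Continuous.intervalIntegrable
      fun_prop
  have hI0 : 0 ≤ ∫ t in x..y, ‖RP F b t‖ ^ 2 := by
    apply intervalIntegral.integral_nonneg hxy
    intro t _
    positivity
  have h1 : ∫ t in x..y, ‖RP F b t‖ ^ 2 ≤ ∑ n ∈ F, ∑ m ∈ F, (‖b n‖ * ‖b m‖) * κ n m := by
    have h2 : ∫ t in x..y, ‖RP F b t‖ ^ 2 = ‖((∫ t in x..y, ‖RP F b t‖ ^ 2 : ℝ) : ℂ)‖ := by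
      rw [Complex.norm_real, Real.norm_eq_abs, abs_of_nonneg hI0]
    rw [h2, hint]
    refine (norm_sum_le _ _).trans (sum_le_sum fun n hn => (norm_sum_le _ _).trans
      (sum_le_sum fun m hm => ?_))
    rw [norm_mul, norm_mul, Complex.norm_conj]
    apply mul_le_mul_of_nonneg_left _ (by positivity)
    simp only [hκ]
    by_cases h : n = m
    · rw [if_pos h, h]
      simp only [sub_self, mul_zero, Complex.ofReal_zero, zero_mul, Complex.exp_zero]
      rw [intervalIntegral.integral_const]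
      simp only [Complex.real_smul, mul_one, Complex.norm_real, Real.norm_eq_abs]
      rw [abs_of_nonneg (by linarith)]
    · rw [if_neg h]
      have hne : Real.log (n : ℝ) - Real.log (m : ℝ) ≠ 0 := by
        have h3 := log_sep hn hm h
        intro h4
        rw [abs_sub_comm, h4, abs_zero] at h3
        have : 0 < 1 / (X : ℝ) ^ 2 := by positivity
        linarith
      have := Pool.Agent.TH705.DL.osc (Real.log (n : ℝ) - Real.log (m : ℝ)) x y hne
      rw [abs_sub_comm] at this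
      refine this.trans (le_of_eq ?_)
      ring
  refine h1.trans ?_
  -- Schur test
  have h3 : ∀ n ∈ F, ∑ m ∈ F, κ n m ≤ (y - x) + 4 * (X : ℝ) ^ 2 * (2 + 3 * Real.log X) := by
    intro n hn
    rw [← add_sum_erase _ _ hn]
    have e1 : κ n n = y - x := by simp [hκ]
    rw [e1]
    have e2 : ∑ m ∈ F.erase n, κ n m = 2 * ∑ m ∈ F.erase n,
        1 / |Real.log (m : ℝ) - Real.log (n : ℝ)| := by
      rw [mul_sum]
      refine sum_congr rfl fun m hm => ?_
      rw [mem_erase] at hm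
      simp only [hκ]
      rw [if_neg (Ne.symm hm.1)]
    rw [e2]
    have := recip hX hn
    rw [← hF] at this
    linarith
  set K := (y - x) + 4 * (X : ℝ) ^ 2 * (2 + 3 * Real.log X) with hK
  calc ∑ n ∈ F, ∑ m ∈ F, (‖b n‖ * ‖b m‖) * κ n m
      ≤ ∑ n ∈ F, ∑ m ∈ F, (‖b n‖ ^ 2 / 2 * κ n m + ‖b m‖ ^ 2 / 2 * κ m n) := by
        refine sum_le_sum fun n _ => sum_le_sum fun m _ => ?_
        rw [hκsymm m n]
        have h4 : ‖b n‖ * ‖b m‖ ≤ ‖b n‖ ^ 2 / 2 + ‖b m‖ ^ 2 / 2 := by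
          nlinarith [sq_nonneg (‖b n‖ - ‖b m‖)]
        have h5 := mul_le_mul_of_nonneg_right h4 (hκ0 n m)
        linarith
    _ = ∑ n ∈ F, ‖b n‖ ^ 2 * ∑ m ∈ F, κ n m := by
        simp_rw [sum_add_distrib]
        rw [sum_comm (f := fun n m => ‖b m‖ ^ 2 / 2 * κ m n), ← sum_add_distrib]
        refine sum_congr rfl fun n _ => ?_
        rw [← sum_add_distrib, mul_sum]
        refine sum_congr rfl fun m _ => ?_
        ring
    _ ≤ ∑ n ∈ F, ‖b n‖ ^ 2 * K := by
        refine sum_le_sum fun n hn => mul_le_mul_of_nonneg_left (h3 n hn) (by positivity)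
    _ = _ := by rw [← sum_mul]; ring

/-- the constant in the large sieve -/
noncomputable def KL (T : ℝ) (X : ℕ) : ℝ :=
  (2 + Real.log X ^ 2) * ((T + 1) + 4 * (X : ℝ) ^ 2 * (2 + 3 * Real.log X))

lemma KL_pos {T : ℝ} {X : ℕ} (hT : 0 ≤ T) (hX : 1 ≤ X) : 0 < KL T X := by
  have hX1 : (1 : ℝ) ≤ X := by exact_mod_cast hX
  have hlog : 0 ≤ Real.log X := Real.log_nonneg hX1
  unfold KL
  positivity

/-- **large sieve** for the frequencies `log r` -/
theorem large_sieve {X : ℕ} (hX : 1 ≤ X) (b : ℚ → ℂ) (S : Finset ℝ)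
    (hS : ∀ t ∈ S, ∀ u ∈ S, t ≠ u → 1 ≤ |t - u|) (x T : ℝ)
    (hT : 0 ≤ T) (hx : ∀ t ∈ S, x ≤ t ∧ t ≤ x + T) :
    ∑ t ∈ S, ‖RP (FX X) b t‖ ^ 2 ≤ KL T X * ∑ r ∈ FX X, ‖b r‖ ^ 2 := by
  have hX1 : (1 : ℝ) ≤ X := by exact_mod_cast hX
  have hL : 0 ≤ Real.log X := Real.log_nonneg hX1
  set a' : ℚ → ℂ := fun r => Complex.I * (Real.log (r : ℝ) : ℂ) * b r with ha'
  have hc := RP_cont (FX X) b
  have hc' := RP_cont (FX X) a'
  have h1 : ∑ t ∈ S, ‖RP (FX X) b t‖ ^ 2 ≤
      ∑ t ∈ S, ∫ u in t..(t + 1), (2 * ‖RP (FX X) b u‖ ^ 2 + ‖RP (FX X) a' u‖ ^ 2) := by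
    apply sum_le_sum
    intro t _
    exact Pool.Agent.W170.MV.gall (RP_hasDeriv (FX X) b) hc hc' t t le_rfl (by linarith)
  refine h1.trans ((Pool.Agent.TH705.DL.sum_unit_le (by fun_prop) (fun _ => by positivity) S hS x
    (x + T) (by linarith) hx).trans ?_)
  rw [intervalIntegral.integral_add (by apply Continuous.intervalIntegrable; fun_prop)
    (by apply Continuous.intervalIntegrable; fun_prop), intervalIntegral.integral_const_mul]
  have h2 := mean_value hX b x (x + T + 1) (by linarith)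
  have h3 := mean_value hX a' x (x + T + 1) (by linarith)
  have h4 : ∑ r ∈ FX X, ‖a' r‖ ^ 2 ≤ Real.log X ^ 2 * ∑ r ∈ FX X, ‖b r‖ ^ 2 := by
    rw [mul_sum]
    apply sum_le_sum
    intro n hn
    have hl := log_size hn
    simp only [ha', norm_mul, Complex.norm_I, one_mul, Complex.norm_real, Real.norm_eq_abs]
    rw [mul_pow]
    exact mul_le_mul_of_nonneg_right (pow_le_pow_left₀ (abs_nonneg _) hl 2) (by positivity)
  have e : x + T + 1 - x = T + 1 := by ring
  rw [e] at h2 h3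
  set K := (T + 1) + 4 * (X : ℝ) ^ 2 * (2 + 3 * Real.log X) with hK
  have hK0 : 0 ≤ K := by positivity
  have h5 : K * ∑ r ∈ FX X, ‖a' r‖ ^ 2 ≤ K * (Real.log X ^ 2 * ∑ r ∈ FX X, ‖b r‖ ^ 2) :=
    mul_le_mul_of_nonneg_left h4 hK0
  unfold KL
  calc 2 * (∫ u in x..(x + T + 1), ‖RP (FX X) b u‖ ^ 2) + ∫ u in x..(x + T + 1), ‖RP (FX X) a' u‖ ^ 2
      ≤ 2 * (K * ∑ r ∈ FX X, ‖b r‖ ^ 2) +
        K * (Real.log X ^ 2 * ∑ r ∈ FX X, ‖b r‖ ^ 2) := by linarith
    _ = _ := by ring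

end Pool.Agent.X108.HB
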