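import Pool.Agent.X108.HB.BL

/-!
# Dirichlet polynomials supported on almost coprime integers
-/

set_option autoImplicit false

namespace Pool.Agent.X108.HB

open Finset Pool.Agent.Y766 Pool.Agent.Y766.PS
open scoped Pointwise

/-- pairs of one greatest common divisor -/
lemma fib_le {N g : ℕ} (hg0 : 0 < g) (s : Finset (ℕ × ℕ))
    (hs : ∀ p ∈ s, 1 ≤ p.1 ∧ p.1 ≤ N ∧ 1 ≤ p.2 ∧ p.2 ≤ N ∧ Nat.gcd p.1 p.2 = g)
    (φ : ℚ → ℝ) (hφ : ∀ r, 0 ≤ φ r) :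
    ∑ p ∈ s, φ ((p.1 : ℚ) / p.2) ≤ ∑ r ∈ FX N, φ r := by
  classical
  have key : ∀ x : ℕ × ℕ, 1 ≤ x.1 → 1 ≤ x.2 → Nat.gcd x.1 x.2 = g →
      x.1 = g * ((x.1 : ℚ) / x.2).num.natAbs ∧ x.2 = g * ((x.1 : ℚ) / x.2).den := by
    intro x hx1 hx2 hxg
    obtain ⟨a, ha⟩ := Nat.gcd_dvd_left x.1 x.2
    obtain ⟨b, hb⟩ := Nat.gcd_dvd_right x.1 x.2
    rw [hxg] at ha hb
    have ha0 : 1 ≤ a := Nat.pos_of_ne_zero (by rintro rfl; omega)
    have hb0 : 1 ≤ b := Nat.pos_of_ne_zero (by rintro rfl; omega)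
    have hcop : Nat.Coprime a b := by
      have h6 : g * Nat.gcd a b = g * 1 := by
        rw [← Nat.gcd_mul_left, ← ha, ← hb, hxg, mul_one]
      exact Nat.eq_of_mul_eq_mul_left hg0 h6
    have e : (x.1 : ℚ) / x.2 = (a : ℚ) / b := by
      rw [ha, hb]
      push_cast
      have : (g : ℚ) ≠ 0 := by exact_mod_cast hg0.ne'
      rw [mul_div_mul_left _ _ this]
    obtain ⟨e1, e2⟩ := nd_of_coprime ha0 hb0 hcop
    rw [e, e1, e2]
    exact ⟨ha, hb⟩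
  have hinj : Set.InjOn (fun p : ℕ × ℕ => (p.1 : ℚ) / p.2) s := by
    intro p hp p' hp' hpp
    obtain ⟨h1, h2, h3, h4, hgcd⟩ := hs p hp
    obtain ⟨h1', h2', h3', h4', hgcd'⟩ := hs p' hp'
    simp only at hpp
    obtain ⟨k1, k2⟩ := key p h1 h3 hgcd
    obtain ⟨k1', k2'⟩ := key p' h1' h3' hgcd'
    rw [hpp] at k1 k2
    exact Prod.ext (k1.trans k1'.symm) (k2.trans k2'.symm)
  rw [← sum_image (f := φ) hinj]
  refine sum_le_sum_of_subset_of_nonneg ?_ fun r _ _ => hφ r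
  intro r hr
  rw [mem_image] at hr
  obtain ⟨p, hp, rfl⟩ := hr
  obtain ⟨h1, h2, h3, h4, hgcd⟩ := hs p hp
  obtain ⟨k1, k2⟩ := key p h1 h3 hgcd
  rw [mem_FX]
  have q1 : (0 : ℚ) < p.1 := by exact_mod_cast h1
  have q2 : (0 : ℚ) < p.2 := by exact_mod_cast h3
  refine ⟨div_pos q1 q2, ?_, ?_⟩
  · exact ((Nat.le_mul_of_pos_left _ hg0).trans k1.symm.le).trans h2
  · exact ((Nat.le_mul_of_pos_left _ hg0).trans k2.symm.le).trans h4

/-- the dual large sieve -/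
theorem SS_large {X : ℕ} (hX : 1 ≤ X) {T : ℝ} (hT : 0 ≤ T) (S : Finset ℝ) (x : ℝ) (hS : WS S x T)
    (c : ℝ → ℂ) (hc : ∀ t ∈ S, ‖c t‖ ≤ 1) : SS S c X ≤ KL T X * S.card := by
  set C : ℚ → ℂ := fun r => ∑ t ∈ S, c t * ee t r with hC
  set Q := SS S c X with hQ
  have hQ0 : 0 ≤ Q := SS_nonneg _ _ _
  set b : ℚ → ℂ := fun r => (starRingEnd ℂ) (C r) with hb
  have hK := KL_pos hT hX
  have hQ' : Q = ∑ r ∈ FX X, ‖C r‖ ^ 2 := rfl
  have h1 : (Q : ℂ) = ∑ t ∈ S, c t * RP (FX X) b t := by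
    rw [hQ']
    push_cast
    have : ∀ n, ((‖C n‖ : ℂ)) ^ 2 = (starRingEnd ℂ) (C n) * ∑ t ∈ S, c t * ee t n := by
      intro n
      rw [← Complex.conj_mul']
    simp only [this, mul_sum, RP]
    rw [sum_comm]
    apply sum_congr rfl
    intro t _
    apply sum_congr rfl
    intro n _
    simp only [hb]
    ring
  have h2 : Q ≤ ∑ t ∈ S, ‖RP (FX X) b t‖ := by
    have : Q ≤ ‖(Q : ℂ)‖ := by
      rw [Complex.norm_real]
      exact le_abs_self _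
    refine this.trans ?_
    rw [h1]
    refine (norm_sum_le _ _).trans (sum_le_sum fun t ht => ?_)
    rw [norm_mul]
    exact mul_le_of_le_one_left (norm_nonneg _) (hc t ht)
  have h3 : (∑ t ∈ S, ‖RP (FX X) b t‖) ^ 2 ≤ S.card * ∑ t ∈ S, ‖RP (FX X) b t‖ ^ 2 :=
    sq_sum_le_card_mul_sum_sq
  have h4 := large_sieve hX b S hS.1 x T hT hS.2
  have e2 : ∑ r ∈ FX X, ‖b r‖ ^ 2 = Q := by
    rw [hQ, SS]
    refine sum_congr rfl fun r _ => ?_
    rw [hb, RCLike.norm_conj]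
  rw [e2] at h4
  rcases hQ0.eq_or_lt with h6 | h6
  · rw [← h6]
    positivity
  · have h7 : Q * Q ≤ (KL T X * S.card) * Q := by
      calc Q * Q = Q ^ 2 := by ring
        _ ≤ (∑ t ∈ S, ‖RP (FX X) b t‖) ^ 2 := pow_le_pow_left₀ hQ0 h2 _
        _ ≤ _ := h3
        _ ≤ (S.card : ℝ) * (KL T X * Q) := by gcongr
        _ = _ := by ring
    exact le_of_mul_le_mul_right h7 h6

/-- for every member of `I` at most `G` members have with it a common divisor larger than `G` -/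
def AlmostCoprime (G : ℕ) (I : Finset ℕ) : Prop :=
  ∀ m ∈ I, (I.filter (fun n => G < Nat.gcd m n)).card ≤ G

theorem ZZ_coprime {I : Finset ℕ} {N G : ℕ} (hN : 1 ≤ N) (hI : I ⊆ Icc 1 N) (hG : 1 ≤ G)
    (hIG : AlmostCoprime G I) {T : ℝ} (hT : 0 ≤ T) (S : Finset ℝ) (x : ℝ) (hS : WS S x T) :
    ZZ I S ≤ G * (N * (S.card : ℝ) ^ 2 + KL T N * S.card) := by
  classical
  set φ : ℚ → ℝ := fun r => ‖∑ t ∈ S, ee t r‖ ^ 2 with hφ
  have hφ0 : ∀ r, 0 ≤ φ r := fun r => pow_nonneg (norm_nonneg _) 2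
  have hφ1 : ∀ r, φ r ≤ (S.card : ℝ) ^ 2 := by
    intro r
    refine pow_le_pow_left₀ (norm_nonneg _) ?_ 2
    refine (norm_sum_le _ _).trans (le_of_eq ?_)
    simp [ee_norm]
  have hNr : (0 : ℝ) ≤ N := Nat.cast_nonneg _
  have hmem : ∀ n ∈ I, 1 ≤ n ∧ n ≤ N := fun n hn => mem_Icc.1 (hI hn)
  have e0 : ZZ I S = ∑ p ∈ I ×ˢ I, φ ((p.1 : ℚ) / p.2) := by
    unfold ZZ
    rw [← sum_product']
  rw [e0, ← sum_filter_add_sum_filter_not (I ×ˢ I) (fun p => G < Nat.gcd p.1 p.2)]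
  have h1 : ∑ p ∈ (I ×ˢ I).filter (fun p => G < Nat.gcd p.1 p.2), φ ((p.1 : ℚ) / p.2) ≤
      G * (N * (S.card : ℝ) ^ 2) := by
    have hc : (((I ×ˢ I).filter (fun p => G < Nat.gcd p.1 p.2)).card : ℝ) ≤ N * G := by
      have h2 : ((I ×ˢ I).filter (fun p => G < Nat.gcd p.1 p.2)).card ≤ N * G := by
        rw [card_filter, sum_product]
        calc ∑ m ∈ I, ∑ n ∈ I, (if G < Nat.gcd m n then 1 else 0)
            = ∑ m ∈ I, (I.filter (fun n => G < Nat.gcd m n)).card := by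
              refine sum_congr rfl fun m _ => ?_
              rw [card_filter]
          _ ≤ ∑ m ∈ I, G := sum_le_sum hIG
          _ = I.card * G := by rw [sum_const, smul_eq_mul]
          _ ≤ N * G := by
              apply Nat.mul_le_mul_right
              have := card_le_card hI
              simpa using this
      exact_mod_cast h2
    calc ∑ p ∈ (I ×ˢ I).filter (fun p => G < Nat.gcd p.1 p.2), φ ((p.1 : ℚ) / p.2)
        ≤ ∑ p ∈ (I ×ˢ I).filter (fun p => G < Nat.gcd p.1 p.2), (S.card : ℝ) ^ 2 :=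
          sum_le_sum fun p _ => hφ1 _
      _ = (((I ×ˢ I).filter (fun p => G < Nat.gcd p.1 p.2)).card : ℝ) * (S.card : ℝ) ^ 2 := by
          rw [sum_const, nsmul_eq_mul]
      _ ≤ (N * G) * (S.card : ℝ) ^ 2 := by gcongr
      _ = _ := by ring
  have h2 : ∑ p ∈ (I ×ˢ I).filter (fun p => ¬ G < Nat.gcd p.1 p.2), φ ((p.1 : ℚ) / p.2) ≤
      G * (KL T N * S.card) := by
    have hmaps : ∀ p ∈ (I ×ˢ I).filter (fun p => ¬ G < Nat.gcd p.1 p.2), Nat.gcd p.1 p.2 ∈ Icc 1 G := by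
      intro p hp
      rw [mem_filter, mem_product] at hp
      rw [mem_Icc]
      exact ⟨Nat.gcd_pos_of_pos_left _ (hmem _ hp.1.1).1, not_lt.1 hp.2⟩
    rw [← sum_fiberwise_of_maps_to hmaps]
    have h3 : ∀ g ∈ Icc 1 G, ∑ p ∈ ((I ×ˢ I).filter (fun p => ¬ G < Nat.gcd p.1 p.2)).filter
        (fun p => Nat.gcd p.1 p.2 = g), φ ((p.1 : ℚ) / p.2) ≤ KL T N * S.card := by
      intro g hg
      rw [mem_Icc] at hg
      have h4 := fib_le (N := N) (g := g) hg.1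
        (((I ×ˢ I).filter (fun p => ¬ G < Nat.gcd p.1 p.2)).filter (fun p => Nat.gcd p.1 p.2 = g))
        (by
          intro p hp
          rw [mem_filter, mem_filter, mem_product] at hp
          have a1 := hmem _ hp.1.1.1
          have a2 := hmem _ hp.1.1.2
          exact ⟨a1.1, a1.2, a2.1, a2.2, hp.2⟩) φ hφ0
      refine h4.trans ?_
      have h5 := SS_large hN hT S x hS (fun _ => 1) (fun _ _ => by simp)
      refine le_trans (le_of_eq ?_) h5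
      unfold SS
      refine sum_congr rfl fun r _ => ?_
      simp only [hφ]
      congr 2
      refine sum_congr rfl fun t _ => ?_
      rw [one_mul]
    refine (sum_le_sum h3).trans (le_of_eq ?_)
    rw [sum_const, nsmul_eq_mul, Nat.card_Icc]
    simp
  calc _ ≤ G * (N * (S.card : ℝ) ^ 2) + G * (KL T N * S.card) := add_le_add h1 h2
    _ = _ := by ring

/-- the second moment on `W` from a sumset `W + X` -/
theorem moment_sumset {I : Finset ℕ} (hI : ∀ n ∈ I, 1 ≤ n) (a : ℕ → ℂ)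
    (ha : ∀ n ∈ I, ‖a n‖ ≤ 1) (W X : Finset ℝ) :
    (X.card : ℝ) * ∑ t ∈ W, ‖DD I a t‖ ^ 2 ≤ Real.sqrt (ZZ I (W + X)) * Real.sqrt (ZZ I X) := by
  classical
  have h1 := bil_sub hI a ha (W + X) X 0
  refine le_trans ?_ h1
  have e1 : (X.card : ℝ) * ∑ t ∈ W, ‖DD I a t‖ ^ 2 = ∑ q ∈ W ×ˢ X, ‖DD I a q.1‖ ^ 2 := by
    rw [sum_product, mul_comm, sum_mul]
    refine sum_congr rfl fun t _ => ?_
    simp only [sum_const, nsmul_eq_mul]
    ring
  have e2 : ∑ x ∈ W + X, ∑ y ∈ X, ‖DD I a (0 + x - y)‖ ^ 2 =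
      ∑ q ∈ (W + X) ×ˢ X, ‖DD I a (q.1 - q.2)‖ ^ 2 := by
    rw [sum_product]
    refine sum_congr rfl fun x _ => sum_congr rfl fun y _ => ?_
    rw [zero_add]
  rw [e1, e2]
  have hinj : Set.InjOn (fun q : ℝ × ℝ => (q.1 + q.2, q.2)) ((W ×ˢ X : Finset (ℝ × ℝ)) : Set (ℝ × ℝ)) := by
    intro p _ q _ hpq
    simp only [Prod.mk.injEq] at hpq
    obtain ⟨k1, k2⟩ := hpq
    rw [k2] at k1
    exact Prod.ext (add_right_cancel k1) k2
  have e3 : ∑ q ∈ W ×ˢ X, ‖DD I a q.1‖ ^ 2 =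
      ∑ q ∈ (W ×ˢ X).image (fun q : ℝ × ℝ => (q.1 + q.2, q.2)), ‖DD I a (q.1 - q.2)‖ ^ 2 := by
    rw [sum_image hinj]
    refine sum_congr rfl fun q _ => ?_
    rw [add_sub_cancel_right]
  rw [e3]
  refine sum_le_sum_of_subset_of_nonneg ?_ fun _ _ _ => pow_nonneg (norm_nonneg _) 2
  intro q hq
  rw [mem_image] at hq
  obtain ⟨p, hp, rfl⟩ := hq
  rw [mem_product] at hp ⊢
  exact ⟨add_mem_add hp.1 hp.2, hp.2⟩

/-- the large sieve constant for `T ≤ 2 N²` -/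
lemma KL_le {N : ℕ} (hN : 1 ≤ N) {T : ℝ} (hT0 : 0 ≤ T) (hT : T ≤ 2 * (N : ℝ) ^ 2) :
    KL T N ≤ 60 * (1 + Real.log N) ^ 3 * (N : ℝ) ^ 2 := by
  have hN1 : (1 : ℝ) ≤ N := by exact_mod_cast hN
  have hl : 0 ≤ Real.log N := Real.log_nonneg hN1
  have hN2 : (1 : ℝ) ≤ (N : ℝ) ^ 2 := one_le_pow₀ hN1
  unfold KL
  have h1 : 2 + Real.log N ^ 2 ≤ 2 * (1 + Real.log N) ^ 2 := by nlinarith
  have h2 : (T + 1) + 4 * (N : ℝ) ^ 2 * (2 + 3 * Real.log N) ≤ 15 * (1 + Real.log N) * (N : ℝ) ^ 2 := by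
    nlinarith
  calc _ ≤ (2 * (1 + Real.log N) ^ 2) * (15 * (1 + Real.log N) * (N : ℝ) ^ 2) :=
        mul_le_mul h1 h2 (by positivity) (by positivity)
    _ = 30 * (1 + Real.log N) ^ 3 * (N : ℝ) ^ 2 := by ring
    _ ≤ _ := by gcongr; norm_num

end Pool.Agent.X108.HB
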