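import Pool.Agent.X108.HB.EN
import Pool.Agent.Y766.PS2

/-!
# Products of weights on the rationals of bounded height
-/

set_option autoImplicit false

namespace Pool.Agent.X108.HB

open Finset Pool.Agent.Y766 Pool.Agent.Y766.PS

/-- the multiplicative convolution -/
noncomputable def cv (F G : Finset ℚ) (u v : ℚ → ℂ) (ρ : ℚ) : ℂ := by
  classical
  exact ∑ p ∈ (F ×ˢ G).filter (fun p => p.1 * p.2 = ρ), u p.1 * v p.2

/-- **the bilinear energy inequality** -/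
theorem conv_energy {X τ : ℕ} (F G : Finset ℚ) (hF : Box X X F) (hG : Box X X G)
    (hτ : ∀ n, 1 ≤ n → n ≤ X ^ 2 → n.divisors.card ≤ τ) (u v : ℚ → ℂ) (R : Finset ℚ) :
    ∑ ρ ∈ R, ‖cv F G u v ρ‖ ^ 2 ≤
      (τ : ℝ) ^ 6 * ((∑ r ∈ F, ‖u r‖ ^ 2) * ∑ r ∈ G, ‖v r‖ ^ 2) := by
  classical
  set U : ℚ → ℝ := fun r => ‖u r‖ with hU
  set V : ℚ → ℝ := fun r => ‖v r‖ with hV
  set P := F ×ˢ G with hP
  set K := (F ×ˢ F).image (fun p => p.1 / p.2) with hK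
  have hU0 : ∀ r, 0 ≤ U r := fun r => norm_nonneg _
  have hV0 : ∀ r, 0 ≤ V r := fun r => norm_nonneg _
  have h1 : ∑ ρ ∈ R, ‖cv F G u v ρ‖ ^ 2 ≤
      ∑ ρ ∈ R, ∑ p ∈ P.filter (fun p => p.1 * p.2 = ρ),
        (U p.1 * V p.2) * ∑ p' ∈ P.filter (fun p' => p'.1 * p'.2 = p.1 * p.2), U p'.1 * V p'.2 := by
    refine sum_le_sum fun ρ _ => ?_
    have h2 : ‖cv F G u v ρ‖ ≤ ∑ p ∈ P.filter (fun p => p.1 * p.2 = ρ), U p.1 * V p.2 := by
      unfold cv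
      refine (norm_sum_le _ _).trans (le_of_eq ?_)
      refine sum_congr rfl fun p _ => ?_
      rw [norm_mul]
    refine (pow_le_pow_left₀ (norm_nonneg _) h2 2).trans (le_of_eq ?_)
    rw [sq, sum_mul]
    refine sum_congr rfl fun p hp => ?_
    rw [mem_filter] at hp
    rw [hp.2]
  have h2 : ∑ ρ ∈ R, ∑ p ∈ P.filter (fun p => p.1 * p.2 = ρ),
        (U p.1 * V p.2) * ∑ p' ∈ P.filter (fun p' => p'.1 * p'.2 = p.1 * p.2), U p'.1 * V p'.2 ≤
      ∑ p ∈ P, (U p.1 * V p.2) *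
        ∑ p' ∈ P.filter (fun p' => p'.1 * p'.2 = p.1 * p.2), U p'.1 * V p'.2 := by
    refine sum_fiberwise_le_sum_of_sum_fiber_nonneg (s := P) (t := R) (g := fun p => p.1 * p.2)
      (fun ρ _ => sum_nonneg fun p _ => ?_)
    exact mul_nonneg (mul_nonneg (hU0 _) (hV0 _))
      (sum_nonneg fun p' _ => mul_nonneg (hU0 _) (hV0 _))
  have h3 : ∑ p ∈ P, (U p.1 * V p.2) *
        ∑ p' ∈ P.filter (fun p' => p'.1 * p'.2 = p.1 * p.2), U p'.1 * V p'.2 =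
      ∑ a ∈ F ×ˢ F, (U a.1 * U a.2) * cor G V (a.1 / a.2) := by
    have e1 : ∑ p ∈ P, (U p.1 * V p.2) *
        ∑ p' ∈ P.filter (fun p' => p'.1 * p'.2 = p.1 * p.2), U p'.1 * V p'.2 =
        ∑ r ∈ F, ∑ s ∈ G, ∑ r' ∈ F, ∑ s' ∈ G,
          (if r' * s' = r * s then U r * V s * (U r' * V s') else 0) := by
      rw [hP, sum_product]
      refine sum_congr rfl fun r _ => sum_congr rfl fun s _ => ?_
      rw [sum_filter, mul_sum, sum_product]
      refine sum_congr rfl fun r' _ => sum_congr rfl fun s' _ => ?_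
      simp only
      split_ifs
      · rfl
      · rw [mul_zero]
    have e2 : ∑ a ∈ F ×ˢ F, (U a.1 * U a.2) * cor G V (a.1 / a.2) =
        ∑ r ∈ F, ∑ r' ∈ F, ∑ s' ∈ G, ∑ s ∈ G,
          (if s' / s = r / r' then U r * U r' * (V s' * V s) else 0) := by
      rw [sum_product]
      refine sum_congr rfl fun r _ => sum_congr rfl fun r' _ => ?_
      unfold cor
      rw [sum_filter, mul_sum, sum_product]
      refine sum_congr rfl fun s' _ => sum_congr rfl fun s _ => ?_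
      simp only
      split_ifs
      · rfl
      · rw [mul_zero]
    rw [e1, e2]
    refine sum_congr rfl fun r hr => ?_
    rw [sum_comm]
    refine sum_congr rfl fun r' hr' => ?_
    rw [sum_comm]
    refine sum_congr rfl fun s' hs' => sum_congr rfl fun s hs => ?_
    have r0 := (hF r hr).1
    have r0' := (hF r' hr').1
    have s0 := (hG s hs).1
    have s0' := (hG s' hs').1
    have hiff : r' * s' = r * s ↔ s' / s = r / r' := by
      rw [div_eq_div_iff s0.ne' r0'.ne', mul_comm r' s']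
    by_cases h : r' * s' = r * s
    · rw [if_pos h, if_pos (hiff.1 h)]; ring
    · rw [if_neg h, if_neg (fun h' => h (hiff.2 h'))]
  have h4 : ∑ a ∈ F ×ˢ F, (U a.1 * U a.2) * cor G V (a.1 / a.2) =
      ∑ κ ∈ K, cor F U κ * cor G V κ := by
    rw [← sum_fiberwise_of_maps_to (s := F ×ˢ F) (t := K) (g := fun p => p.1 / p.2)
      (fun p hp => mem_image_of_mem _ hp)]
    refine sum_congr rfl fun κ _ => ?_
    unfold cor
    rw [sum_mul]
    refine sum_congr rfl fun p hp => ?_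
    rw [mem_filter] at hp
    rw [hp.2]
  have h5 := sum_mul_sq_le_sq_mul_sq K (fun κ => cor F U κ) (fun κ => cor G V κ)
  have h6 := energy F hF hτ U K
  have h7 := energy G hG hτ V K
  have hUs : 0 ≤ ∑ r ∈ F, U r ^ 2 := sum_nonneg fun _ _ => by positivity
  have hVs : 0 ≤ ∑ r ∈ G, V r ^ 2 := sum_nonneg fun _ _ => by positivity
  have h8 : (∑ κ ∈ K, cor F U κ * cor G V κ) ^ 2 ≤
      ((τ : ℝ) ^ 6 * ((∑ r ∈ F, U r ^ 2) * ∑ r ∈ G, V r ^ 2)) ^ 2 := by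
    calc (∑ κ ∈ K, cor F U κ * cor G V κ) ^ 2
        ≤ (∑ κ ∈ K, cor F U κ ^ 2) * ∑ κ ∈ K, cor G V κ ^ 2 := h5
      _ ≤ ((τ : ℝ) ^ 6 * (∑ r ∈ F, U r ^ 2) ^ 2) * ((τ : ℝ) ^ 6 * (∑ r ∈ G, V r ^ 2) ^ 2) :=
          mul_le_mul h6 h7 (sum_nonneg fun _ _ => by positivity) (by positivity)
      _ = _ := by ring
  have h9 : ∑ κ ∈ K, cor F U κ * cor G V κ ≤
      (τ : ℝ) ^ 6 * ((∑ r ∈ F, U r ^ 2) * ∑ r ∈ G, V r ^ 2) :=
    (abs_le_of_sq_le_sq' h8 (by positivity)).2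
  calc _ ≤ _ := h1
    _ ≤ _ := h2
    _ = _ := h3
    _ = _ := h4
    _ ≤ _ := h9

lemma FX_box {X Y : ℕ} (h : X ≤ Y) : Box Y Y (FX X) := by
  intro r hr
  obtain ⟨h1, h2, h3⟩ := mem_FX.1 hr
  exact ⟨h1, h2.trans h, h3.trans h⟩

lemma FX_mul {X Y : ℕ} {r s : ℚ} (hr : r ∈ FX X) (hs : s ∈ FX Y) : r * s ∈ FX (X * Y) := by
  obtain ⟨h1, h2, h3⟩ := mem_FX.1 hr
  obtain ⟨h1', h2', h3'⟩ := mem_FX.1 hs
  obtain ⟨e1, e2⟩ := mul_nd h1 h1'
  have hg : 1 ≤ Nat.gcd r.num.natAbs s.den * Nat.gcd s.num.natAbs r.den :=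
    Nat.mul_pos (Nat.gcd_pos_of_pos_left _ (num_pos h1)) (Nat.gcd_pos_of_pos_left _ (num_pos h1'))
  rw [mem_FX]
  refine ⟨mul_pos h1 h1', ?_, ?_⟩
  · calc (r * s).num.natAbs ≤ (r * s).num.natAbs *
          (Nat.gcd r.num.natAbs s.den * Nat.gcd s.num.natAbs r.den) := Nat.le_mul_of_pos_right _ hg
      _ = r.num.natAbs * s.num.natAbs := e1
      _ ≤ X * Y := Nat.mul_le_mul h2 h2'
  · calc (r * s).den ≤ (r * s).den *
          (Nat.gcd r.num.natAbs s.den * Nat.gcd s.num.natAbs r.den) := Nat.le_mul_of_pos_right _ hg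
      _ = r.den * s.den := e2
      _ ≤ X * Y := Nat.mul_le_mul h3 h3'

lemma FX_one : FX 1 = {1} := by
  ext r
  rw [mem_FX, mem_singleton]
  constructor
  · rintro ⟨h1, h2, h3⟩
    have h4 := num_pos h1
    have h5 := r.den_pos
    have e1 : r.num.natAbs = 1 := by omega
    have e2 : r.den = 1 := by omega
    rw [rat_eq h1, e1, e2]
    norm_num
  · rintro rfl
    norm_num

/-- the coefficients of the powers -/
noncomputable def pwc (b : ℚ → ℂ) (X : ℕ) : ℕ → ℚ → ℂ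
  | 0 => fun ρ => if ρ = 1 then 1 else 0
  | (m + 1) => cv (FX (X ^ m)) (FX X) (pwc b X m) b

lemma pwc_eval (b : ℚ → ℂ) (X : ℕ) (m : ℕ) (t : ℝ) :
    RP (FX (X ^ m)) (pwc b X m) t = RP (FX X) b t ^ m := by
  classical
  induction m with
  | zero =>
    rw [pow_zero, pow_zero, FX_one]
    unfold RP pwc
    simp [ee_one]
  | succ m ih =>
    rw [pow_succ (RP (FX X) b t), ← ih]
    unfold RP
    rw [sum_mul_sum, ← sum_product']
    have hmaps : ∀ p ∈ FX (X ^ m) ×ˢ FX X, p.1 * p.2 ∈ FX (X ^ (m + 1)) := by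
      intro p hp
      rw [mem_product] at hp
      rw [pow_succ]
      exact FX_mul hp.1 hp.2
    rw [← sum_fiberwise_of_maps_to hmaps]
    refine sum_congr rfl fun ρ _ => ?_
    show cv (FX (X ^ m)) (FX X) (pwc b X m) b ρ * ee t ρ = _
    unfold cv
    rw [sum_mul]
    refine sum_congr rfl fun p hp => ?_
    rw [mem_filter, mem_product] at hp
    have h1 := (mem_FX.1 hp.1.1).1
    have h2 := (mem_FX.1 hp.1.2).1
    rw [← hp.2, ee_mul t h1 h2]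
    ring

lemma pwc_norm (b : ℚ → ℂ) {X M τ : ℕ} (hX : 1 ≤ X)
    (hτ : ∀ n, 1 ≤ n → n ≤ (X ^ M) ^ 2 → n.divisors.card ≤ τ) (m : ℕ) (hm : m ≤ M) :
    ∑ ρ ∈ FX (X ^ m), ‖pwc b X m ρ‖ ^ 2 ≤ (τ : ℝ) ^ (6 * m) * (∑ r ∈ FX X, ‖b r‖ ^ 2) ^ m := by
  classical
  induction m with
  | zero =>
    rw [pow_zero, FX_one, sum_singleton]
    unfold pwc
    simp
  | succ m ih =>
    have h1 : X ^ m ≤ X ^ M := Nat.pow_le_pow_right hX (by omega)
    have h2 : X ≤ X ^ M := by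
      calc X = X ^ 1 := (pow_one X).symm
        _ ≤ X ^ M := Nat.pow_le_pow_right hX (by omega)
    have h3 := conv_energy (FX (X ^ m)) (FX X) (FX_box h1) (FX_box h2) hτ (pwc b X m) b
      (FX (X ^ (m + 1)))
    have ih' := ih (by omega)
    refine h3.trans ?_
    have h4 : 0 ≤ ∑ r ∈ FX X, ‖b r‖ ^ 2 := sum_nonneg fun _ _ => by positivity
    calc (τ : ℝ) ^ 6 * ((∑ r ∈ FX (X ^ m), ‖pwc b X m r‖ ^ 2) * ∑ r ∈ FX X, ‖b r‖ ^ 2)
        ≤ (τ : ℝ) ^ 6 * (((τ : ℝ) ^ (6 * m) * (∑ r ∈ FX X, ‖b r‖ ^ 2) ^ m) *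
            ∑ r ∈ FX X, ‖b r‖ ^ 2) := by gcongr
      _ = _ := by ring

/-- **the mean square of `∑_t c_t r^{it}` over the rationals of height at most `X`** -/
theorem spec_bound {X m τ : ℕ} (hX : 1 ≤ X) (hm : 1 ≤ m)
    (hτ : ∀ n, 1 ≤ n → n ≤ (X ^ m) ^ 2 → n.divisors.card ≤ τ) (S : Finset ℝ)
    (hS : ∀ t ∈ S, ∀ u ∈ S, t ≠ u → 1 ≤ |t - u|) (x T : ℝ)
    (hT : 0 ≤ T) (hx : ∀ t ∈ S, x ≤ t ∧ t ≤ x + T) (c : ℝ → ℂ) (hc : ∀ t ∈ S, ‖c t‖ ≤ 1) :
    (∑ r ∈ FX X, ‖∑ t ∈ S, c t * ee t r‖ ^ 2) ^ m ≤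
      (S.card : ℝ) ^ (2 * m - 1) * (KL T (X ^ m) * (τ : ℝ) ^ (6 * m)) := by
  classical
  set C : ℚ → ℂ := fun r => ∑ t ∈ S, c t * ee t r with hC
  set Q := ∑ r ∈ FX X, ‖C r‖ ^ 2 with hQ
  have hQ0 : 0 ≤ Q := sum_nonneg fun _ _ => by positivity
  set b : ℚ → ℂ := fun r => (starRingEnd ℂ) (C r) with hb
  have hXm : 1 ≤ X ^ m := Nat.one_le_pow _ _ hX
  have hK := KL_pos hT hXm
  have h1 : (Q : ℂ) = ∑ t ∈ S, c t * RP (FX X) b t := by
    rw [hQ]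
    push_cast
    have : ∀ n, ((‖C n‖ : ℂ)) ^ 2 = (starRingEnd ℂ) (C n) * ∑ t ∈ S, c t * ee t n := by
      intro n
      rw [← Complex.conj_mul']
    simp only [this, mul_sum, RP]
    rw [sum_comm]
    apply sum_congr rfl
    intro t _
    apply sum_congr rfl
    intro n _
    simp only [hb]
    ring
  have h2 : Q ≤ ∑ t ∈ S, ‖RP (FX X) b t‖ := by
    have : Q ≤ ‖(Q : ℂ)‖ := by
      rw [Complex.norm_real]
      exact le_abs_self _
    refine this.trans ?_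
    rw [h1]
    refine (norm_sum_le _ _).trans (sum_le_sum fun t ht => ?_)
    rw [norm_mul]
    exact mul_le_of_le_one_left (norm_nonneg _) (hc t ht)
  rcases S.eq_empty_or_nonempty with hSe | hSn
  · have : Q = 0 := by
      rw [hQ, hC, hSe]
      simp
    rw [this, zero_pow (by omega)]
    positivity
  have hcard : (0 : ℝ) < S.card := by exact_mod_cast hSn.card_pos
  -- power mean
  have h3 : (∑ t ∈ S, ‖RP (FX X) b t‖) ^ (2 * m) ≤
      (S.card : ℝ) ^ (2 * m - 1) * ∑ t ∈ S, ‖RP (FX X) b t‖ ^ (2 * m) := by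
    obtain ⟨k, hk⟩ : ∃ k, 2 * m = k + 1 := ⟨2 * m - 1, by omega⟩
    have h4 := pow_sum_div_card_le_sum_pow (s := S) (f := fun t => ‖RP (FX X) b t‖)
      (fun t _ => norm_nonneg _) k
    rw [div_le_iff₀ (by positivity)] at h4
    rw [hk, Nat.add_sub_cancel]
    linarith
  have h4 : ∑ t ∈ S, ‖RP (FX X) b t‖ ^ (2 * m) ≤
      KL T (X ^ m) * ((τ : ℝ) ^ (6 * m) * Q ^ m) := by
    have h5 := large_sieve hXm (pwc b X m) S hS x T hT hx
    have h6 := pwc_norm b hX hτ m le_rfl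
    have e1 : ∑ t ∈ S, ‖RP (FX (X ^ m)) (pwc b X m) t‖ ^ 2 =
        ∑ t ∈ S, ‖RP (FX X) b t‖ ^ (2 * m) := by
      refine sum_congr rfl fun t _ => ?_
      rw [pwc_eval, norm_pow, ← pow_mul, mul_comm]
    have e2 : ∑ r ∈ FX X, ‖b r‖ ^ 2 = Q := by
      rw [hQ]
      refine sum_congr rfl fun r _ => ?_
      rw [hb, RCLike.norm_conj]
    rw [e1] at h5
    rw [e2] at h6
    exact h5.trans (mul_le_mul_of_nonneg_left h6 hK.le)
  rcases hQ0.eq_or_lt with h6 | h6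
  · rw [← h6, zero_pow (by omega)]
    positivity
  · have h7 : Q ^ m * Q ^ m ≤ ((S.card : ℝ) ^ (2 * m - 1) * (KL T (X ^ m) * (τ : ℝ) ^ (6 * m))) *
        Q ^ m := by
      calc Q ^ m * Q ^ m = Q ^ (2 * m) := by rw [← pow_add]; congr 1; omega
        _ ≤ (∑ t ∈ S, ‖RP (FX X) b t‖) ^ (2 * m) := pow_le_pow_left₀ hQ0 h2 _
        _ ≤ _ := h3
        _ ≤ (S.card : ℝ) ^ (2 * m - 1) * (KL T (X ^ m) * ((τ : ℝ) ^ (6 * m) * Q ^ m)) := by gcongr
        _ = _ := by ring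
    exact le_of_mul_le_mul_right h7 (by positivity)

end Pool.Agent.X108.HB
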