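import Pool.Agent.X108.HB.FB

/-!
# Double sums of Dirichlet polynomials
-/

set_option autoImplicit false

namespace Pool.Agent.X108.HB

open Finset Pool.Agent.Y766 Pool.Agent.Y766.PS

/-- the exponent in the general range -/
noncomputable def gam (m : ℕ) (β : ℝ) : ℝ := 2 * (1 - β) * (m + 1) / (m + 1 - β)

/-- **the general range** -/
theorem F2 {ε : ℝ} (hε : 0 < ε) (m : ℕ) (hm : 1 ≤ m) : ∃ C : ℝ, 1 ≤ C ∧ ∀ (β : ℝ), 0 ≤ β → β ≤ 1 →
    ∀ (T : ℝ), 1 ≤ T → ∀ (S : Finset ℝ) (x : ℝ), WS S x T → ∀ (X : ℕ), 1 ≤ X →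
    (X : ℝ) ^ (2 * m) ≤ T → T ^ β ≤ (S.card : ℝ) → ∀ (c : ℝ → ℂ), (∀ t ∈ S, ‖c t‖ ≤ 1) →
    SS S c X ≤ C * T ^ ε * (S.card : ℝ) ^ 2 * (X : ℝ) ^ gam m β := by
  set M : ℕ := ⌈1 / ε⌉₊ + 1 with hM
  obtain ⟨C, hC1, hC⟩ := SB hε M
  refine ⟨2 * C, by linarith, ?_⟩
  intro β hβ0 hβ1 T hT S x hS X hX hXT hβ c hc
  have hT0 : 0 < T := by linarith
  have hXr : (1 : ℝ) ≤ X := by exact_mod_cast hX
  have hX0 : (0 : ℝ) < X := by linarith
  set s : ℝ := (S.card : ℝ) with hs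
  have hs1 : 1 ≤ s := (Real.one_le_rpow hT hβ0).trans hβ
  have hs0 : 0 < s := by linarith
  have hm1r : (1 : ℝ) ≤ m := by exact_mod_cast hm
  have hγ0 : 0 ≤ gam m β := by
    unfold gam
    apply div_nonneg
    · apply mul_nonneg (by linarith) (by linarith)
    · linarith
  have hXγ : 1 ≤ (X : ℝ) ^ gam m β := Real.one_le_rpow hXr hγ0
  have hTε1 : 1 ≤ T ^ ε := Real.one_le_rpow hT hε.le
  rcases le_or_gt (X : ℝ) (T ^ (ε / 2)) with hA | hB
  · have h1 := SS_trivial S c hc X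
    have h2 : (X : ℝ) ^ 2 ≤ T ^ ε := by
      calc (X : ℝ) ^ 2 ≤ (T ^ (ε / 2)) ^ 2 := pow_le_pow_left₀ hX0.le hA 2
        _ = T ^ ε := by
          rw [← Real.rpow_natCast, ← Real.rpow_mul hT0.le]
          congr 1; push_cast; ring
    calc SS S c X ≤ (X : ℝ) ^ 2 * s ^ 2 := h1
      _ ≤ T ^ ε * s ^ 2 := by gcongr
      _ = 1 * T ^ ε * s ^ 2 * 1 := by ring
      _ ≤ (2 * C) * T ^ ε * s ^ 2 * (X : ℝ) ^ gam m β := by gcongr; linarith
  · have hT1 : 1 < T := by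
      by_contra h
      have hT' : T = 1 := le_antisymm (not_lt.1 h) hT
      rw [hT', Real.one_rpow] at hB
      rw [hT'] at hXT
      have : (1 : ℝ) < (X : ℝ) ^ (2 * m) := one_lt_pow₀ hB (by omega)
      linarith
    have hX1r : (1 : ℝ) < X := lt_of_le_of_lt (Real.one_le_rpow hT (by positivity)) hB
    have hX1 : 1 < X := by exact_mod_cast hX1r
    have hX2 : 1 < X ^ 2 := Nat.one_lt_pow (by norm_num) hX1
    set k : ℕ := Nat.log (X ^ 2) ⌊T⌋₊ with hk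
    have hfl : ⌊T⌋₊ ≠ 0 := by
      have : 0 < ⌊T⌋₊ := Nat.floor_pos.2 hT
      omega
    have hXk : (X : ℝ) ^ (2 * k) ≤ T := by
      have h1 := Nat.pow_log_le_self (X ^ 2) hfl
      rw [← hk] at h1
      have h2 : (((X ^ 2) ^ k : ℕ) : ℝ) ≤ (⌊T⌋₊ : ℝ) := by exact_mod_cast h1
      have h3 := Nat.floor_le hT0.le
      push_cast at h2
      rw [← pow_mul] at h2
      linarith
    have hXk1 : T < (X : ℝ) ^ (2 * k + 2) := by
      have h1 := Nat.lt_pow_succ_log_self hX2 ⌊T⌋₊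
      rw [← hk, Nat.floor_lt hT0.le] at h1
      push_cast at h1
      rw [← pow_mul] at h1
      refine h1.trans_le (le_of_eq ?_)
      congr 1
    have hmk : m ≤ k := by
      by_contra h
      push Not at h
      have h1 : (X : ℝ) ^ (2 * k + 2) ≤ (X : ℝ) ^ (2 * m) := pow_le_pow_right₀ hXr (by omega)
      linarith
    have hk1 : 1 ≤ k := hm.trans hmk
    have hkε : (k : ℝ) ≤ 1 / ε := by
      have h1 : (T ^ (ε / 2)) ^ (2 * k) ≤ T :=
        (pow_le_pow_left₀ (by positivity) hB.le _).trans hXk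
      rw [← Real.rpow_natCast, ← Real.rpow_mul hT0.le] at h1
      have h2 : ε / 2 * ((2 * k : ℕ) : ℝ) ≤ 1 := by
        by_contra h3
        push Not at h3
        have h4 := Real.rpow_lt_rpow_of_exponent_lt hT1 h3
        rw [Real.rpow_one] at h4
        linarith
      push_cast at h2
      rw [le_div_iff₀ hε]
      linarith
    have hkM : k + 1 ≤ M := by
      rw [hM]
      have : (k : ℝ) ≤ (⌈1 / ε⌉₊ : ℝ) := hkε.trans (Nat.le_ceil _)
      have : k ≤ ⌈1 / ε⌉₊ := by exact_mod_cast this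
      omega
    have hXk2 : (X : ℝ) ^ (k + 1) ≤ 2 * T := by
      have : (X : ℝ) ^ (k + 1) ≤ (X : ℝ) ^ (2 * k) := pow_le_pow_right₀ hXr (by omega)
      linarith
    have hXk3 : (X : ℝ) ^ k ≤ 2 * T := by
      have : (X : ℝ) ^ k ≤ (X : ℝ) ^ (2 * k) := pow_le_pow_right₀ hXr (by omega)
      linarith
    have key1 := hC T hT S x hS X k hX hk1 (by omega) hXk3 c hc
    have key2 := hC T hT S x hS X (k + 1) hX (by omega) hkM hXk2 c hc
    rw [← hs] at key1 key2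
    set F : ℝ := SS S c X / s ^ 2 with hF
    have hF0 : 0 ≤ F := div_nonneg (SS_nonneg _ _ _) (by positivity)
    obtain ⟨B, hB'⟩ : ∃ B : ℝ, B = 2 * C * T ^ ε := ⟨_, rfl⟩
    have hB1 : 1 ≤ B := by rw [hB']; nlinarith
    have hB0 : 0 < B := by linarith
    have hTβ : 0 < T ^ β := Real.rpow_pos_of_pos hT0 β
    have hk_r : (1 : ℝ) ≤ k := by exact_mod_cast hk1
    -- the two estimates
    have f1 : F ^ k ≤ B * T ^ (1 - β) := by
      have h1 : F ^ k = SS S c X ^ k / (s ^ (2 * k - 1) * s) := by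
        rw [hF, div_pow]
        congr 1
        rw [← pow_succ, ← pow_mul]
        congr 1
        omega
      rw [h1, div_le_iff₀ (by positivity)]
      calc SS S c X ^ k ≤ C * T ^ ε * s ^ (2 * k - 1) * (T + ((X : ℝ) ^ k) ^ 2) := key1
        _ ≤ C * T ^ ε * s ^ (2 * k - 1) * (T + T) := by
            have : ((X : ℝ) ^ k) ^ 2 ≤ T := by
              rw [← pow_mul, mul_comm]; exact hXk
            gcongr
        _ = B * s ^ (2 * k - 1) * T := by rw [hB']; ring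
        _ = B * s ^ (2 * k - 1) * (T ^ (1 - β) * T ^ β) := by
            rw [← Real.rpow_add hT0]
            norm_num
        _ ≤ B * s ^ (2 * k - 1) * (T ^ (1 - β) * s) := by gcongr
        _ = _ := by ring
    have f2 : F ^ (k + 1) ≤ B * (X : ℝ) ^ (2 * k + 2) * T ^ (-β) := by
      have h1 : F ^ (k + 1) = SS S c X ^ (k + 1) / (s ^ (2 * (k + 1) - 1) * s) := by
        rw [hF, div_pow]
        congr 1
        rw [← pow_succ, ← pow_mul]
        congr 1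
      rw [h1, div_le_iff₀ (by positivity)]
      calc SS S c X ^ (k + 1) ≤ C * T ^ ε * s ^ (2 * (k + 1) - 1) * (T + ((X : ℝ) ^ (k + 1)) ^ 2) := key2
        _ ≤ C * T ^ ε * s ^ (2 * (k + 1) - 1) * ((X : ℝ) ^ (2 * k + 2) + (X : ℝ) ^ (2 * k + 2)) := by
            have : ((X : ℝ) ^ (k + 1)) ^ 2 = (X : ℝ) ^ (2 * k + 2) := by
              rw [← pow_mul]; congr 1; ring
            rw [this]
            gcongr
        _ = B * (X : ℝ) ^ (2 * k + 2) * s ^ (2 * (k + 1) - 1) * (T ^ (-β) * T ^ β) := by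
            rw [← Real.rpow_add hT0, neg_add_cancel, Real.rpow_zero, hB']; ring
        _ ≤ B * (X : ℝ) ^ (2 * k + 2) * s ^ (2 * (k + 1) - 1) * (T ^ (-β) * s) := by gcongr
        _ = _ := by ring
    set a : ℝ := (k : ℝ) * β + ((k : ℝ) + 1) * (1 - β) with ha
    have ha' : a = k + 1 - β := by rw [ha]; ring
    have ha1 : 1 ≤ a := by rw [ha']; linarith
    have f3 : F ^ a ≤ B * (X : ℝ) ^ ((2 * (k : ℝ) + 2) * (1 - β)) := by
      have e1 : F ^ a = (F ^ k) ^ β * (F ^ (k + 1)) ^ (1 - β) := by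
        rw [ha, Real.rpow_add_of_nonneg hF0 (by positivity) (mul_nonneg (by positivity) (by linarith)),
          Real.rpow_mul hF0, Real.rpow_mul hF0, Real.rpow_natCast]
        congr 2
        rw [← Real.rpow_natCast]
        push_cast
        rfl
      rw [e1]
      have g1 : (F ^ k) ^ β ≤ (B * T ^ (1 - β)) ^ β :=
        Real.rpow_le_rpow (by positivity) f1 hβ0
      have g2 : (F ^ (k + 1)) ^ (1 - β) ≤ (B * (X : ℝ) ^ (2 * k + 2) * T ^ (-β)) ^ (1 - β) :=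
        Real.rpow_le_rpow (by positivity) f2 (by linarith)
      have hXe : ((X : ℝ) ^ (2 * k + 2)) ^ (1 - β) = (X : ℝ) ^ ((2 * (k : ℝ) + 2) * (1 - β)) := by
        rw [← Real.rpow_natCast, ← Real.rpow_mul hX0.le]
        push_cast
        rfl
      calc (F ^ k) ^ β * (F ^ (k + 1)) ^ (1 - β)
          ≤ (B * T ^ (1 - β)) ^ β * (B * (X : ℝ) ^ (2 * k + 2) * T ^ (-β)) ^ (1 - β) :=
            mul_le_mul g1 g2 (by positivity) (by positivity)
        _ = (B ^ β * T ^ ((1 - β) * β)) * ((B ^ (1 - β) * (X : ℝ) ^ ((2 * (k : ℝ) + 2) * (1 - β))) *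
              T ^ (-β * (1 - β))) := by
            rw [Real.mul_rpow hB0.le (by positivity), Real.mul_rpow (by positivity) (by positivity),
              Real.mul_rpow hB0.le (by positivity), ← Real.rpow_mul hT0.le, ← Real.rpow_mul hT0.le,
              hXe]
        _ = (B ^ β * B ^ (1 - β)) * (X : ℝ) ^ ((2 * (k : ℝ) + 2) * (1 - β)) *
              (T ^ ((1 - β) * β) * T ^ (-β * (1 - β))) := by ring
        _ = _ := by
            rw [← Real.rpow_add hB0, ← Real.rpow_add hT0]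
            have e2 : (1 - β) * β + -β * (1 - β) = 0 := by ring
            rw [e2, Real.rpow_zero, mul_one]
            norm_num
    have f4 : F ≤ B * (X : ℝ) ^ gam m β := by
      have g1 : F = (F ^ a) ^ (1 / a) := by
        rw [← Real.rpow_mul hF0, mul_one_div_cancel (by linarith), Real.rpow_one]
      have g2 : (F ^ a) ^ (1 / a) ≤ (B * (X : ℝ) ^ ((2 * (k : ℝ) + 2) * (1 - β))) ^ (1 / a) :=
        Real.rpow_le_rpow (by positivity) f3 (by positivity)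
      have g3 : (B * (X : ℝ) ^ ((2 * (k : ℝ) + 2) * (1 - β))) ^ (1 / a) ≤ B * (X : ℝ) ^ gam m β := by
        rw [Real.mul_rpow hB0.le (by positivity), ← Real.rpow_mul hX0.le]
        apply mul_le_mul
        · calc B ^ (1 / a) ≤ B ^ (1 : ℝ) := by
                apply Real.rpow_le_rpow_of_exponent_le hB1
                rw [div_le_one (by linarith)]
                exact ha1
            _ = B := Real.rpow_one B
        · apply Real.rpow_le_rpow_of_exponent_le hXr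
          rw [ha']
          unfold gam
          rw [mul_one_div, div_le_div_iff₀ (by linarith) (by linarith)]
          have hmkr : (m : ℝ) ≤ k := by exact_mod_cast hmk
          have : 0 ≤ (1 - β) * β * ((k : ℝ) - m) :=
            mul_nonneg (mul_nonneg (by linarith) hβ0) (by linarith)
          nlinarith
        · positivity
        · positivity
      calc F = (F ^ a) ^ (1 / a) := g1
        _ ≤ _ := g2.trans g3
    have f5 : SS S c X = F * s ^ 2 := by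
      rw [hF]
      field_simp
    rw [f5]
    calc F * s ^ 2 ≤ (B * (X : ℝ) ^ gam m β) * s ^ 2 :=
          mul_le_mul_of_nonneg_right f4 (sq_nonneg s)
      _ = _ := by rw [hB']; ring

/-- the phases at an integer set -/
noncomputable def ZZ (I : Finset ℕ) (S : Finset ℝ) : ℝ :=
  ∑ m ∈ I, ∑ n ∈ I, ‖∑ t ∈ S, ee t ((m : ℚ) / n)‖ ^ 2

lemma ZZ_nonneg (I : Finset ℕ) (S : Finset ℝ) : 0 ≤ ZZ I S :=
  sum_nonneg fun _ _ => sum_nonneg fun _ _ => pow_nonneg (norm_nonneg _) 2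

/-- sums over pairs by the greatest common divisor -/
lemma pairs_sum_le (N : ℕ) (φ : ℚ → ℝ) (hφ : ∀ r, 0 ≤ φ r) :
    ∑ p ∈ Icc 1 N ×ˢ Icc 1 N, φ ((p.1 : ℚ) / p.2) ≤ ∑ g ∈ Icc 1 N, ∑ r ∈ FX (N / g), φ r := by
  classical
  set s := Icc 1 N ×ˢ Icc 1 N with hs
  have hmem : ∀ p ∈ s, 1 ≤ p.1 ∧ p.1 ≤ N ∧ 1 ≤ p.2 ∧ p.2 ≤ N := by
    intro p hp
    rw [hs, mem_product, mem_Icc, mem_Icc] at hp
    exact ⟨hp.1.1, hp.1.2, hp.2.1, hp.2.2⟩
  have hmaps : ∀ p ∈ s, Nat.gcd p.1 p.2 ∈ Icc 1 N := by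
    intro p hp
    obtain ⟨h1, h2, h3, h4⟩ := hmem p hp
    rw [mem_Icc]
    exact ⟨Nat.gcd_pos_of_pos_left _ h1, (Nat.le_of_dvd h1 (Nat.gcd_dvd_left _ _)).trans h2⟩
  rw [← sum_fiberwise_of_maps_to hmaps]
  refine sum_le_sum fun g hg => ?_
  rw [mem_Icc] at hg
  have hg0 : 0 < g := hg.1
  -- reduced fractions
  have key : ∀ x : ℕ × ℕ, 1 ≤ x.1 → 1 ≤ x.2 → Nat.gcd x.1 x.2 = g →
      x.1 = g * ((x.1 : ℚ) / x.2).num.natAbs ∧ x.2 = g * ((x.1 : ℚ) / x.2).den := by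
    intro x hx1 hx2 hxg
    obtain ⟨a, ha⟩ := Nat.gcd_dvd_left x.1 x.2
    obtain ⟨b, hb⟩ := Nat.gcd_dvd_right x.1 x.2
    rw [hxg] at ha hb
    have ha0 : 1 ≤ a := Nat.pos_of_ne_zero (by rintro rfl; omega)
    have hb0 : 1 ≤ b := Nat.pos_of_ne_zero (by rintro rfl; omega)
    have hcop : Nat.Coprime a b := by
      have h6 : g * Nat.gcd a b = g * 1 := by
        rw [← Nat.gcd_mul_left, ← ha, ← hb, hxg, mul_one]
      exact Nat.eq_of_mul_eq_mul_left hg0 h6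
    have e : (x.1 : ℚ) / x.2 = (a : ℚ) / b := by
      rw [ha, hb]
      push_cast
      have : (g : ℚ) ≠ 0 := by exact_mod_cast hg0.ne'
      rw [mul_div_mul_left _ _ this]
    obtain ⟨e1, e2⟩ := nd_of_coprime ha0 hb0 hcop
    rw [e, e1, e2]
    exact ⟨ha, hb⟩
  have hinj : Set.InjOn (fun p : ℕ × ℕ => (p.1 : ℚ) / p.2)
      (s.filter (fun p => Nat.gcd p.1 p.2 = g)) := by
    intro p hp p' hp' hpp
    simp only [coe_filter, Set.mem_ofPred_eq] at hp hp' hpp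
    obtain ⟨hp, hgcd⟩ := hp
    obtain ⟨hp', hgcd'⟩ := hp'
    obtain ⟨h1, h2, h3, h4⟩ := hmem p hp
    obtain ⟨h1', h2', h3', h4'⟩ := hmem p' hp'
    obtain ⟨k1, k2⟩ := key p h1 h3 hgcd
    obtain ⟨k1', k2'⟩ := key p' h1' h3' hgcd'
    rw [hpp] at k1 k2
    exact Prod.ext (k1.trans k1'.symm) (k2.trans k2'.symm)
  rw [← sum_image (f := φ) hinj]
  refine sum_le_sum_of_subset_of_nonneg ?_ fun r _ _ => hφ r
  intro r hr
  rw [mem_image] at hr
  obtain ⟨p, hp, rfl⟩ := hr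
  rw [mem_filter] at hp
  obtain ⟨h1, h2, h3, h4⟩ := hmem p hp.1
  obtain ⟨k1, k2⟩ := key p h1 h3 hp.2
  rw [mem_FX]
  have q1 : (0 : ℚ) < p.1 := by exact_mod_cast h1
  have q2 : (0 : ℚ) < p.2 := by exact_mod_cast h3
  refine ⟨div_pos q1 q2, ?_, ?_⟩
  · rw [Nat.le_div_iff_mul_le hg0, mul_comm, ← k1]; exact h2
  · rw [Nat.le_div_iff_mul_le hg0, mul_comm, ← k2]; exact h4

lemma ZZ_le {I : Finset ℕ} {N : ℕ} (hI : I ⊆ Icc 1 N) (S : Finset ℝ) :
    ZZ I S ≤ ∑ g ∈ Icc 1 N, SS S (fun _ => 1) (N / g) := by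
  have h1 := pairs_sum_le N (fun r => ‖∑ t ∈ S, ee t r‖ ^ 2)
    (fun r => pow_nonneg (norm_nonneg _) 2)
  have h2 : ZZ I S ≤ ∑ p ∈ Icc 1 N ×ˢ Icc 1 N, ‖∑ t ∈ S, ee t ((p.1 : ℚ) / p.2)‖ ^ 2 := by
    unfold ZZ
    rw [← sum_product']
    exact sum_le_sum_of_subset_of_nonneg (product_subset_product hI hI)
      fun _ _ _ => pow_nonneg (norm_nonneg _) 2
  refine h2.trans (h1.trans (le_of_eq ?_))
  refine sum_congr rfl fun g _ => ?_
  unfold SS
  refine sum_congr rfl fun r _ => ?_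
  congr 2
  refine sum_congr rfl fun t _ => ?_
  rw [one_mul]

/-- the sum over the greatest common divisors -/
lemma gcd_sum (N : ℕ) (γ : ℝ) (hγ : 1 ≤ γ) :
    ∑ g ∈ Icc 1 N, (((N / g : ℕ) : ℝ)) ^ γ ≤ (N : ℝ) ^ γ * (1 + Real.log N) := by
  have h1 : ∀ g ∈ Icc 1 N, (((N / g : ℕ) : ℝ)) ^ γ ≤ (N : ℝ) ^ γ * (1 / (g : ℝ)) := by
    intro g hg
    rw [mem_Icc] at hg
    have hg1 : (1 : ℝ) ≤ g := by exact_mod_cast hg.1
    have hg0 : (0 : ℝ) < g := by linarith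
    have h2 : ((N / g : ℕ) : ℝ) ≤ (N : ℝ) / g := Nat.cast_div_le
    calc (((N / g : ℕ) : ℝ)) ^ γ ≤ ((N : ℝ) / g) ^ γ :=
          Real.rpow_le_rpow (Nat.cast_nonneg _) h2 (by linarith)
      _ = (N : ℝ) ^ γ * (1 / (g : ℝ) ^ γ) := by
          rw [Real.div_rpow (Nat.cast_nonneg _) hg0.le]; ring
      _ ≤ _ := by
          apply mul_le_mul_of_nonneg_left _ (Real.rpow_nonneg (Nat.cast_nonneg _) _)
          apply one_div_le_one_div_of_le hg0
          calc (g : ℝ) = (g : ℝ) ^ (1 : ℝ) := (Real.rpow_one _).symm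
            _ ≤ _ := Real.rpow_le_rpow_of_exponent_le hg1 hγ
  refine (sum_le_sum h1).trans ?_
  rw [← mul_sum]
  apply mul_le_mul_of_nonneg_left _ (Real.rpow_nonneg (Nat.cast_nonneg _) _)
  have h3 := harmonic_le_one_add_log N
  rw [harmonic_eq_sum_Icc] at h3
  push_cast at h3
  simpa [one_div] using h3

/-- **the double sum in the clean range** -/
theorem Z1 {ε : ℝ} (hε : 0 < ε) (n : ℕ) (hn : 1 ≤ n) : ∃ C : ℝ, 1 ≤ C ∧ ∀ (T : ℝ), 1 ≤ T →
    ∀ (S : Finset ℝ) (x : ℝ), WS S x T → ∀ (N : ℕ), 1 ≤ N → N ^ n ≤ S.card →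
    T ^ (n + 1) ≤ (S.card : ℝ) ^ (2 * n + 1) → ∀ I : Finset ℕ, I ⊆ Icc 1 N →
    ZZ I S ≤ C * T ^ ε * (S.card : ℝ) ^ 2 * N := by
  have hε2 : 0 < ε / 2 := by positivity
  obtain ⟨C, hC1, hC⟩ := F1 hε2 n hn
  obtain ⟨C2, hC2, h2⟩ := log_absorb hε2
  have h2ε : (1 : ℝ) ≤ 2 ^ (ε / 2) := Real.one_le_rpow (by norm_num) hε2.le
  refine ⟨C * C2 * 2 ^ (ε / 2), by
    have : 1 ≤ C * C2 := by nlinarith
    nlinarith, ?_⟩
  intro T hT S x hS N hN hNn hTn I hI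
  have hT0 : 0 < T := by linarith
  have hNr : (1 : ℝ) ≤ N := by exact_mod_cast hN
  set s : ℝ := (S.card : ℝ) with hs
  have hs2T : s ≤ 2 * T := WS_card hT hS
  have hNs : (N : ℝ) ≤ 2 * T := by
    have h1 : N ≤ N ^ n := Nat.le_self_pow (by omega) N
    have h2 : (N : ℝ) ≤ s := by rw [hs]; exact_mod_cast h1.trans hNn
    linarith
  have hlog : 1 + Real.log N ≤ C2 * (2 ^ (ε / 2) * T ^ (ε / 2)) := by
    rw [← Real.mul_rpow (by norm_num) hT0.le]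
    refine (h2 N hNr).trans ?_
    have := Real.rpow_le_rpow (by linarith) hNs hε2.le
    gcongr
  have hg : ∀ g ∈ Icc 1 N, SS S (fun _ => 1) (N / g) ≤
      (C * T ^ (ε / 2) * s ^ 2) * (((N / g : ℕ) : ℝ)) ^ (1 : ℝ) := by
    intro g hg
    rw [mem_Icc] at hg
    have hNg1 : 1 ≤ N / g := (Nat.one_le_div_iff hg.1).2 hg.2
    have hNg2 : N / g ≤ N := Nat.div_le_self N g
    have h3 := hC T hT S x hS (N / g) hNg1 ((Nat.pow_le_pow_left hNg2 n).trans hNn) hTn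
      (fun _ => 1) (fun _ _ => by simp)
    rw [Real.rpow_one]
    exact h3
  calc ZZ I S ≤ ∑ g ∈ Icc 1 N, SS S (fun _ => 1) (N / g) := ZZ_le hI S
    _ ≤ ∑ g ∈ Icc 1 N, (C * T ^ (ε / 2) * s ^ 2) * (((N / g : ℕ) : ℝ)) ^ (1 : ℝ) := sum_le_sum hg
    _ = (C * T ^ (ε / 2) * s ^ 2) * ∑ g ∈ Icc 1 N, (((N / g : ℕ) : ℝ)) ^ (1 : ℝ) := by
        rw [mul_sum]
    _ ≤ (C * T ^ (ε / 2) * s ^ 2) * ((N : ℝ) ^ (1 : ℝ) * (1 + Real.log N)) := by
        have := gcd_sum N 1 le_rfl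
        gcongr
    _ ≤ (C * T ^ (ε / 2) * s ^ 2) * ((N : ℝ) ^ (1 : ℝ) * (C2 * (2 ^ (ε / 2) * T ^ (ε / 2)))) := by
        gcongr
    _ = (C * C2 * 2 ^ (ε / 2)) * (T ^ (ε / 2) * T ^ (ε / 2)) * s ^ 2 * N := by
        rw [Real.rpow_one]; ring
    _ = _ := by rw [← Real.rpow_add hT0, add_halves]

/-- **the double sum in the general range** -/
theorem Z2 {ε : ℝ} (hε : 0 < ε) (m : ℕ) (hm : 1 ≤ m) : ∃ C : ℝ, 1 ≤ C ∧ ∀ (β : ℝ), 0 ≤ β → β ≤ 1 →
    ∀ (T : ℝ), 1 ≤ T → ∀ (S : Finset ℝ) (x : ℝ), WS S x T → ∀ (N : ℕ), 1 ≤ N →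
    (N : ℝ) ^ (2 * m) ≤ T → T ^ β ≤ (S.card : ℝ) → ∀ I : Finset ℕ, I ⊆ Icc 1 N →
    ZZ I S ≤ C * T ^ ε * (S.card : ℝ) ^ 2 * (N : ℝ) ^ max 1 (gam m β) := by
  have hε2 : 0 < ε / 2 := by positivity
  obtain ⟨C, hC1, hC⟩ := F2 hε2 m hm
  obtain ⟨C2, hC2, h2⟩ := log_absorb hε2
  refine ⟨C * C2, by nlinarith, ?_⟩
  intro β hβ0 hβ1 T hT S x hS N hN hNm hTβ I hI
  have hT0 : 0 < T := by linarith
  have hNr : (1 : ℝ) ≤ N := by exact_mod_cast hN
  set s : ℝ := (S.card : ℝ) with hs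
  have hNT : (N : ℝ) ≤ T := (le_self_pow₀ hNr (by omega)).trans hNm
  have hlog : 1 + Real.log N ≤ C2 * T ^ (ε / 2) := by
    refine (h2 N hNr).trans ?_
    have := Real.rpow_le_rpow (by linarith) hNT hε2.le
    gcongr
  set γ : ℝ := max 1 (gam m β) with hγ
  have hγ1 : 1 ≤ γ := le_max_left _ _
  have hg : ∀ g ∈ Icc 1 N, SS S (fun _ => 1) (N / g) ≤
      (C * T ^ (ε / 2) * s ^ 2) * (((N / g : ℕ) : ℝ)) ^ γ := by
    intro g hg
    rw [mem_Icc] at hg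
    have hNg1 : 1 ≤ N / g := (Nat.one_le_div_iff hg.1).2 hg.2
    have hNg2 : N / g ≤ N := Nat.div_le_self N g
    have hNg1r : (1 : ℝ) ≤ ((N / g : ℕ) : ℝ) := by exact_mod_cast hNg1
    have hNg2r : ((N / g : ℕ) : ℝ) ≤ N := by exact_mod_cast hNg2
    have h3 := hC β hβ0 hβ1 T hT S x hS (N / g) hNg1
      ((pow_le_pow_left₀ (by linarith) hNg2r (2 * m)).trans hNm) hTβ
      (fun _ => 1) (fun _ _ => by simp)
    refine h3.trans ?_
    have : (((N / g : ℕ) : ℝ)) ^ gam m β ≤ (((N / g : ℕ) : ℝ)) ^ γ :=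
      Real.rpow_le_rpow_of_exponent_le hNg1r (le_max_right _ _)
    gcongr
  calc ZZ I S ≤ ∑ g ∈ Icc 1 N, SS S (fun _ => 1) (N / g) := ZZ_le hI S
    _ ≤ ∑ g ∈ Icc 1 N, (C * T ^ (ε / 2) * s ^ 2) * (((N / g : ℕ) : ℝ)) ^ γ := sum_le_sum hg
    _ = (C * T ^ (ε / 2) * s ^ 2) * ∑ g ∈ Icc 1 N, (((N / g : ℕ) : ℝ)) ^ γ := by
        rw [mul_sum]
    _ ≤ (C * T ^ (ε / 2) * s ^ 2) * ((N : ℝ) ^ γ * (1 + Real.log N)) := by
        have := gcd_sum N γ hγ1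
        gcongr
    _ ≤ (C * T ^ (ε / 2) * s ^ 2) * ((N : ℝ) ^ γ * (C2 * T ^ (ε / 2))) := by gcongr
    _ = (C * C2) * (T ^ (ε / 2) * T ^ (ε / 2)) * s ^ 2 * (N : ℝ) ^ γ := by ring
    _ = _ := by rw [← Real.rpow_add hT0, add_halves]

end Pool.Agent.X108.HB
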